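import Pool.Agent.R263.MQ.Defs

/-! Potential of a measure on `[0,1]` with the self-similarity of the question mark measure. -/

namespace Pool.Agent.R263.MQ

open MeasureTheory Set Real

theorem measurable_f0 : Measurable f0 := by
  unfold f0; exact measurable_id.div (measurable_const.add measurable_id)

theorem measurable_f1 : Measurable f1 := by
  unfold f1; exact measurable_const.div (measurable_const.add measurable_id)

/-- truncated kernel -/
noncomputable def ker (n : ℕ) (z x : ℝ) : ENNReal := min (ENNReal.ofReal (-Real.log |x - z|)) n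

theorem measurable_ker (n : ℕ) (z : ℝ) : Measurable (ker n z) := by
  unfold ker
  refine Measurable.min ?_ measurable_const
  exact ENNReal.measurable_ofReal.comp
    (Real.measurable_log.comp (measurable_id.sub_const z).abs).neg

theorem ker_le_add {n : ℕ} {a b c : ℝ} (_hc : 0 ≤ c) (h : a ≤ b + c) :
    min (ENNReal.ofReal a) (n : ENNReal) ≤ min (ENNReal.ofReal b) n + ENNReal.ofReal c := by
  have h1 : ENNReal.ofReal a ≤ ENNReal.ofReal b + ENNReal.ofReal c :=
    (ENNReal.ofReal_le_ofReal h).trans (ENNReal.ofReal_add_le)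
  rcases le_total (ENNReal.ofReal b) (n : ENNReal) with hb | hb
  · rw [min_eq_left hb]
    exact (min_le_left _ _).trans h1
  · rw [min_eq_right hb]
    exact (min_le_right _ _).trans le_self_add

theorem ker_le_const {n : ℕ} {a c : ℝ} (h : a ≤ c) :
    min (ENNReal.ofReal a) (n : ENNReal) ≤ ENNReal.ofReal c :=
  (min_le_left _ _).trans (ENNReal.ofReal_le_ofReal h)

theorem log_le_aux {a b c : ℝ} (hb : 0 < b) (hc : 0 < c) (h : b ≤ c * a) :
    -Real.log a ≤ -Real.log b + Real.log c := by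
  have ha : 0 < a := by
    by_contra h'
    push Not at h'
    nlinarith
  have := Real.log_le_log hb h
  rw [Real.log_mul hc.ne' ha.ne'] at this
  linarith

section

variable {μ : Measure ℝ} (hsup : μ (Icc (0 : ℝ) 1)ᶜ = 0) (hnull : NullSingletonClass μ)
  (hss : μ.map f0 + μ.map f1 = 2 • μ) (hprob : IsProbabilityMeasure μ)

include hsup in
theorem ae_mem : ∀ᵐ x ∂μ, x ∈ Icc (0 : ℝ) 1 := by
  rw [ae_iff]; exact hsup

include hss in
theorem lint_ss {g : ℝ → ENNReal} (hg : Measurable g) :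
    2 * ∫⁻ x, g x ∂μ = ∫⁻ x, g (f0 x) ∂μ + ∫⁻ x, g (f1 x) ∂μ := by
  have : ∫⁻ x, g x ∂(2 • μ) = ∫⁻ x, g x ∂(μ.map f0 + μ.map f1) := by rw [hss]
  rw [lintegral_add_measure, lintegral_map hg measurable_f0, lintegral_map hg measurable_f1] at this
  rw [← this]
  simp [two_nsmul, two_mul]

include hprob in
theorem lint_add_const {g : ℝ → ENNReal} {h : ℝ → ENNReal} {c : ENNReal} (hh : Measurable h)
    (hle : ∀ᵐ x ∂μ, g x ≤ h x + c) : ∫⁻ x, g x ∂μ ≤ ∫⁻ x, h x ∂μ + c := by
  calc ∫⁻ x, g x ∂μ ≤ ∫⁻ x, (h x + c) ∂μ := lintegral_mono_ae hle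
    _ = ∫⁻ x, h x ∂μ + c := by
      rw [lintegral_add_left hh]; simp

include hprob in
theorem lint_const {g : ℝ → ENNReal} {c : ENNReal}
    (hle : ∀ᵐ x ∂μ, g x ≤ c) : ∫⁻ x, g x ∂μ ≤ c := by
  calc ∫⁻ x, g x ∂μ ≤ ∫⁻ x, c ∂μ := lintegral_mono_ae hle
    _ = c := by simp

include hprob in
theorem U_le (n : ℕ) (z : ℝ) : ∫⁻ x, ker n z x ∂μ ≤ n := by
  apply lint_const hprob
  exact Filter.Eventually.of_forall fun x => min_le_right _ _

theorem half_of {a c : ENNReal} {n : ℕ} (ha : a ≤ n) (h : 2 * a ≤ a + c) : a ≤ c := by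
  have hat : a ≠ ⊤ := ne_top_of_le_ne_top (ENNReal.natCast_ne_top n) ha
  rw [two_mul] at h
  exact (ENNReal.add_le_add_iff_left hat).1 h

include hsup hnull hss hprob in
theorem U_zero (n : ℕ) : ∫⁻ x, ker n 0 x ∂μ ≤ ENNReal.ofReal (2 * Real.log 2) := by
  apply half_of (U_le hprob n 0)
  rw [lint_ss hss (measurable_ker n 0)]
  have h0 : ∀ᵐ x ∂μ, x ≠ 0 := by
    rw [ae_iff]; simp
  have hl2 : 0 ≤ Real.log 2 := Real.log_nonneg (by norm_num)
  have e1 : ∫⁻ x, ker n 0 (f0 x) ∂μ ≤ ∫⁻ x, ker n 0 x ∂μ + ENNReal.ofReal (Real.log 2) := by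
    apply lint_add_const hprob (measurable_ker n 0)
    filter_upwards [ae_mem hsup, h0] with x hx hx0
    apply ker_le_add hl2
    have hxp : 0 < x := lt_of_le_of_ne hx.1 hx0.symm
    apply log_le_aux (by simpa using hxp.ne') (by norm_num)
    unfold f0
    rw [sub_zero, sub_zero, abs_of_pos hxp, abs_of_pos (by positivity)]
    rw [← mul_div_assoc, le_div_iff₀ (by positivity)]
    nlinarith [hx.2]
  have e2 : ∫⁻ x, ker n 0 (f1 x) ∂μ ≤ ENNReal.ofReal (Real.log 2) := by
    apply lint_const hprob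
    filter_upwards [ae_mem hsup] with x hx
    apply ker_le_const
    unfold f1
    rw [sub_zero, abs_of_pos (by have := hx.1; positivity), one_div, Real.log_inv, neg_neg]
    exact Real.log_le_log (by linarith [hx.1]) (by linarith [hx.2])
  calc _ ≤ (∫⁻ x, ker n 0 x ∂μ + ENNReal.ofReal (Real.log 2)) + ENNReal.ofReal (Real.log 2) :=
        add_le_add e1 e2
    _ = _ := by
      rw [add_assoc, ← ENNReal.ofReal_add hl2 hl2]
      ring_nf

include hsup hnull hss hprob in
theorem U_one (n : ℕ) : ∫⁻ x, ker n 1 x ∂μ ≤ ENNReal.ofReal (2 * Real.log 2) := by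
  have hl2 : 0 ≤ Real.log 2 := Real.log_nonneg (by norm_num)
  have h0 : ∀ᵐ x ∂μ, x ≠ 0 := by
    rw [ae_iff]; simp
  have key : 2 * ∫⁻ x, ker n 1 x ∂μ ≤ 2 * ENNReal.ofReal (2 * Real.log 2) := by
    rw [lint_ss hss (measurable_ker n 1)]
    have e1 : ∫⁻ x, ker n 1 (f0 x) ∂μ ≤ ENNReal.ofReal (Real.log 2) := by
      apply lint_const hprob
      filter_upwards [ae_mem hsup] with x hx
      apply ker_le_const
      have : f0 x - 1 = -(1 / (1 + x)) := by
        unfold f0
        have : (1 + x) ≠ 0 := by linarith [hx.1]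
        field_simp; ring
      rw [this, abs_neg, abs_of_pos (by have := hx.1; positivity), one_div, Real.log_inv, neg_neg]
      exact Real.log_le_log (by linarith [hx.1]) (by linarith [hx.2])
    have e2 : ∫⁻ x, ker n 1 (f1 x) ∂μ ≤ ∫⁻ x, ker n 0 x ∂μ + ENNReal.ofReal (Real.log 2) := by
      apply lint_add_const hprob (measurable_ker n 0)
      filter_upwards [ae_mem hsup, h0] with x hx hx0
      apply ker_le_add hl2
      have hxp : 0 < x := lt_of_le_of_ne hx.1 hx0.symm
      apply log_le_aux (by simpa using hxp.ne') (by norm_num)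
      have : f1 x - 1 = -(x / (1 + x)) := by
        unfold f1
        have : (1 + x) ≠ 0 := by linarith [hx.1]
        field_simp; ring
      rw [this, abs_neg, sub_zero, abs_of_pos hxp, abs_of_pos (by positivity)]
      rw [← mul_div_assoc, le_div_iff₀ (by positivity)]
      nlinarith [hx.2]
    calc _ ≤ ENNReal.ofReal (Real.log 2) + (ENNReal.ofReal (2 * Real.log 2) + ENNReal.ofReal (Real.log 2)) :=
          add_le_add e1 (e2.trans (add_le_add_left (U_zero hsup hnull hss hprob n) _))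
      _ = _ := by
        rw [← ENNReal.ofReal_add (by positivity) hl2, ← ENNReal.ofReal_add hl2 (by positivity)]
        rw [show (2 : ENNReal) = ENNReal.ofReal 2 by simp, ← ENNReal.ofReal_mul (by norm_num)]
        ring_nf
  exact (ENNReal.mul_le_mul_iff_right (by norm_num) (by norm_num)).1 key

theorem f0_diff {x t : ℝ} (hx : x ∈ Icc (0 : ℝ) 1) (ht : t ∈ Icc (0 : ℝ) 1) :
    |x - t| ≤ 4 * |f0 x - f0 t| := by
  have h : f0 x - f0 t = (x - t) / ((1 + x) * (1 + t)) := by
    unfold f0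
    have h1 : (1 + x) ≠ 0 := by linarith [hx.1]
    have h2 : (1 + t) ≠ 0 := by linarith [ht.1]
    field_simp; ring
  have hx1 := hx.1
  have ht1 := ht.1
  rw [h, abs_div, abs_of_pos (show 0 < (1 + x) * (1 + t) by positivity), ← mul_div_assoc,
    le_div_iff₀ (by positivity)]
  have : (1 + x) * (1 + t) ≤ 4 := by nlinarith [hx.2, ht.2]
  nlinarith [abs_nonneg (x - t)]

theorem f1_diff {x t : ℝ} (hx : x ∈ Icc (0 : ℝ) 1) (ht : t ∈ Icc (0 : ℝ) 1) :
    |x - t| ≤ 4 * |f1 x - f1 t| := by
  have h : f1 x - f1 t = -(x - t) / ((1 + x) * (1 + t)) := by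
    unfold f1
    have h1 : (1 + x) ≠ 0 := by linarith [hx.1]
    have h2 : (1 + t) ≠ 0 := by linarith [ht.1]
    field_simp; ring
  have hx1 := hx.1
  have ht1 := ht.1
  rw [h, abs_div, abs_neg, abs_of_pos (show 0 < (1 + x) * (1 + t) by positivity), ← mul_div_assoc,
    le_div_iff₀ (by positivity)]
  have : (1 + x) * (1 + t) ≤ 4 := by nlinarith [hx.2, ht.2]
  nlinarith [abs_nonneg (x - t)]

include hsup hprob in
/-- the part of the iterated function system containing the point -/
theorem near_part (n : ℕ) {f : ℝ → ℝ} {t : ℝ} (ht : t ∈ Icc (0 : ℝ) 1)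
    (hf : ∀ x ∈ Icc (0 : ℝ) 1, |x - t| ≤ 4 * |f x - f t|) :
    ∫⁻ x, ker n (f t) (f x) ∂μ ≤ ∫⁻ x, ker n t x ∂μ + ENNReal.ofReal (Real.log 4) := by
  have hl : 0 ≤ Real.log 4 := Real.log_nonneg (by norm_num)
  apply lint_add_const hprob (measurable_ker n t)
  filter_upwards [ae_mem hsup] with x hx
  apply ker_le_add hl
  rcases eq_or_ne x t with h | h
  · subst h; simpa using hl
  · apply log_le_aux (by simpa [sub_eq_zero] using h) (by norm_num)
    exact hf x hx

include hsup hnull hprob in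
theorem far_part (n : ℕ) {f : ℝ → ℝ} {z : ℝ}
    (hf : ∀ x ∈ Icc (0 : ℝ) 1, |x - 1| ≤ 4 * |f x - z|) :
    ∫⁻ x, ker n z (f x) ∂μ ≤ ∫⁻ x, ker n 1 x ∂μ + ENNReal.ofReal (Real.log 4) := by
  have hl : 0 ≤ Real.log 4 := Real.log_nonneg (by norm_num)
  have h1 : ∀ᵐ x ∂μ, x ≠ 1 := by
    rw [ae_iff]; simp
  apply lint_add_const hprob (measurable_ker n 1)
  filter_upwards [ae_mem hsup, h1] with x hx hx1
  apply ker_le_add hl
  apply log_le_aux (by simpa [sub_eq_zero] using hx1) (by norm_num)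
  exact hf x hx

include hsup hnull hss hprob in
theorem U_step (n : ℕ) (z : ℝ) (hz : z ∈ Icc (0 : ℝ) 1) : ∃ t ∈ Icc (0 : ℝ) 1,
    2 * ∫⁻ x, ker n z x ∂μ ≤ ∫⁻ x, ker n t x ∂μ + ENNReal.ofReal (6 * Real.log 2) := by
  have hl4 : Real.log 4 = 2 * Real.log 2 := by
    rw [show (4 : ℝ) = 2 ^ 2 by norm_num, Real.log_pow]; norm_num
  have hl2 : 0 ≤ Real.log 2 := Real.log_nonneg (by norm_num)
  have hsum : ∀ a : ENNReal, (a + ENNReal.ofReal (Real.log 4)) +
      (ENNReal.ofReal (2 * Real.log 2) + ENNReal.ofReal (Real.log 4)) =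
      a + ENNReal.ofReal (6 * Real.log 2) := by
    intro a
    rw [add_assoc, ← ENNReal.ofReal_add (by positivity) (by rw [hl4]; positivity),
      ← ENNReal.ofReal_add (by rw [hl4]; positivity) (by rw [hl4]; positivity), hl4]
    ring_nf
  rcases le_total z (1 / 2) with h | h
  · have h1 : (1 - z) ≠ 0 := by linarith
    have ht : z / (1 - z) ∈ Icc (0 : ℝ) 1 := by
      constructor
      · exact div_nonneg hz.1 (by linarith)
      · rw [div_le_one (by linarith)]; linarith
    have hfz : f0 (z / (1 - z)) = z := by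
      unfold f0; field_simp; ring
    refine ⟨z / (1 - z), ht, ?_⟩
    rw [lint_ss hss (measurable_ker n z)]
    have e1 := near_part hsup hprob n (f := f0) ht (fun x hx => f0_diff hx ht)
    rw [hfz] at e1
    have e2 : ∫⁻ x, ker n z (f1 x) ∂μ ≤ _ := far_part hsup hnull hprob n (f := f1) (z := z) (by
      intro x hx
      have hx1 := hx.1
      have e : f1 x - 1 / 2 = (1 - x) / (2 * (1 + x)) := by
        unfold f1
        have h1 : (1 + x) ≠ 0 := by linarith [hx.1]
        field_simp; ring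
      have hp : 0 ≤ (1 - x) / (2 * (1 + x)) := div_nonneg (by linarith [hx.2]) (by positivity)
      have : |f1 x - z| = f1 x - z := abs_of_nonneg (by linarith)
      rw [this, abs_sub_comm, abs_of_nonneg (by linarith [hx.2])]
      have : (1 - x) / 4 ≤ (1 - x) / (2 * (1 + x)) :=
        div_le_div_of_nonneg_left (by linarith [hx.2]) (by positivity) (by linarith [hx.2])
      linarith)
    refine (add_le_add e1 (e2.trans (add_le_add_left (U_one hsup hnull hss hprob n) _))).trans ?_
    rw [hsum]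
  · have h0 : z ≠ 0 := by linarith
    have hzp : 0 < z := by linarith
    have ht : (1 - z) / z ∈ Icc (0 : ℝ) 1 := by
      constructor
      · exact div_nonneg (by linarith [hz.2]) hzp.le
      · rw [div_le_one hzp]; linarith
    have hfz : f1 ((1 - z) / z) = z := by
      unfold f1; field_simp; ring
    refine ⟨(1 - z) / z, ht, ?_⟩
    rw [lint_ss hss (measurable_ker n z), add_comm]
    have e1 := near_part hsup hprob n (f := f1) ht (fun x hx => f1_diff hx ht)
    rw [hfz] at e1
    have e2 : ∫⁻ x, ker n z (f0 x) ∂μ ≤ _ := far_part hsup hnull hprob n (f := f0) (z := z) (by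
      intro x hx
      have hx1 := hx.1
      have e : 1 / 2 - f0 x = (1 - x) / (2 * (1 + x)) := by
        unfold f0
        have h1 : (1 + x) ≠ 0 := by linarith [hx.1]
        field_simp; ring
      have hp : 0 ≤ (1 - x) / (2 * (1 + x)) := div_nonneg (by linarith [hx.2]) (by positivity)
      have : |f0 x - z| = z - f0 x := by rw [abs_sub_comm]; exact abs_of_nonneg (by linarith)
      rw [this, abs_sub_comm, abs_of_nonneg (by linarith [hx.2])]
      have : (1 - x) / 4 ≤ (1 - x) / (2 * (1 + x)) :=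
        div_le_div_of_nonneg_left (by linarith [hx.2]) (by positivity) (by linarith [hx.2])
      linarith)
    refine (add_le_add e1 (e2.trans (add_le_add_left (U_one hsup hnull hss hprob n) _))).trans ?_
    rw [hsum]

include hsup hnull hss hprob in
theorem U_bound (n : ℕ) (z : ℝ) (hz : z ∈ Icc (0 : ℝ) 1) :
    ∫⁻ x, ker n z x ∂μ ≤ ENNReal.ofReal (6 * Real.log 2) := by
  set M : ENNReal := ⨆ z : Icc (0 : ℝ) 1, ∫⁻ x, ker n z x ∂μ with hM
  have hMn : M ≤ n := iSup_le fun z => U_le hprob n z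
  have h2 : 2 * M ≤ M + ENNReal.ofReal (6 * Real.log 2) := by
    rw [hM, ENNReal.mul_iSup]
    apply iSup_le
    rintro ⟨w, hw⟩
    obtain ⟨t, ht, h⟩ := U_step hsup hnull hss hprob n w hw
    refine h.trans (add_le_add_left ?_ _)
    exact le_iSup (fun z : Icc (0 : ℝ) 1 => ∫⁻ x, ker n z x ∂μ) ⟨t, ht⟩
  exact (le_iSup (fun z : Icc (0 : ℝ) 1 => ∫⁻ x, ker n z x ∂μ) ⟨z, hz⟩).trans (half_of hMn h2)

include hsup hnull hss hprob in
theorem lint_log (z : ℝ) (hz : z ∈ Icc (0 : ℝ) 1) :
    ∫⁻ x, ENNReal.ofReal (-Real.log |x - z|) ∂μ ≤ ENNReal.ofReal (6 * Real.log 2) := by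
  have e : ∀ x, ENNReal.ofReal (-Real.log |x - z|) = ⨆ n : ℕ, ker n z x := by
    intro x
    apply le_antisymm
    · obtain ⟨n, hn⟩ := ENNReal.exists_nat_gt (r := ENNReal.ofReal (-Real.log |x - z|)) ENNReal.ofReal_ne_top
      refine le_iSup_of_le n ?_
      unfold ker
      rw [min_eq_left hn.le]
    · exact iSup_le fun n => min_le_left _ _
  simp_rw [e]
  rw [lintegral_iSup (fun n => measurable_ker n z)]
  · exact iSup_le fun n => U_bound hsup hnull hss hprob n z hz
  · intro n m hnm x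
    exact min_le_min le_rfl (by exact_mod_cast hnm)

include hsup hnull hss hprob in
/-- the potential of `μ` is bounded on `[0,1]` -/
theorem pot_bound (z : ℝ) (hz : z ∈ Icc (0 : ℝ) 1) :
    Integrable (fun x => Real.log |x - z|) μ ∧
      -(6 * Real.log 2) ≤ ∫ x, Real.log |x - z| ∂μ := by
  have hm : Measurable fun x : ℝ => Real.log |x - z| :=
    Real.measurable_log.comp (measurable_id.sub_const z).abs
  have hneg : ∀ᵐ x ∂μ, 0 ≤ -Real.log |x - z| := by
    filter_upwards [ae_mem hsup] with x hx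
    have : |x - z| ≤ 1 := abs_le.2 ⟨by linarith [hx.1, hz.2], by linarith [hx.2, hz.1]⟩
    linarith [Real.log_nonpos (abs_nonneg _) this]
  have h1 := lint_log hsup hnull hss hprob z hz
  have hint : Integrable (fun x => -Real.log |x - z|) μ := by
    refine ⟨hm.neg.aestronglyMeasurable, ?_⟩
    rw [hasFiniteIntegral_iff_ofReal hneg]
    exact h1.trans_lt ENNReal.ofReal_lt_top
  refine ⟨by simpa using hint.neg, ?_⟩
  have h2 : ∫ x, -Real.log |x - z| ∂μ ≤ 6 * Real.log 2 := by
    rw [integral_eq_lintegral_of_nonneg_ae hneg hm.neg.aestronglyMeasurable]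
    refine ENNReal.toReal_le_of_le_ofReal ?_ h1
    have : 0 ≤ Real.log 2 := Real.log_nonneg (by norm_num)
    positivity
  rw [integral_neg] at h2
  linarith

end

end Pool.Agent.R263.MQ
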