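import Pool.Agent.R263.MQ.B

/-! Branches of the iterated function system of a prescribed scale. -/

namespace Pool.Agent.R263.MQ

open MeasureTheory Set Real

/-- a branch `φ` (a composition of `f0`, `f1`), with the coefficients of its Möbius formula -/
structure Brn (μ : Measure ℝ) (φ : ℝ → ℝ) (α β γ δ : ℝ) : Prop where
  meas : Measurable φ
  maps : ∀ s ∈ Icc (0 : ℝ) 1, φ s ∈ Icc (0 : ℝ) 1
  form : ∀ s ∈ Icc (0 : ℝ) 1, φ s = (α * s + β) / (γ * s + δ)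
  det : |α * δ - β * γ| = 1
  γ0 : 0 ≤ γ
  δ1 : 1 ≤ δ
  dom : ∃ C : ℝ, 0 ≤ C ∧ μ.map φ ≤ ENNReal.ofReal C • μ

theorem f0_mem {s : ℝ} (hs : s ∈ Icc (0 : ℝ) 1) : f0 s ∈ Icc (0 : ℝ) 1 := by
  have := hs.1
  unfold f0
  exact ⟨by positivity, by rw [div_le_one (by positivity)]; linarith⟩

theorem f1_mem {s : ℝ} (hs : s ∈ Icc (0 : ℝ) 1) : f1 s ∈ Icc (0 : ℝ) 1 := by
  have := hs.1
  unfold f1
  exact ⟨by positivity, by rw [div_le_one (by positivity)]; linarith⟩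

variable {μ : Measure ℝ}

theorem dom_comp {φ f : ℝ → ℝ} (hφ : Measurable φ) (hf : Measurable f) (h2 : μ.map f ≤ 2 • μ)
    (h : ∃ C : ℝ, 0 ≤ C ∧ μ.map φ ≤ ENNReal.ofReal C • μ) :
    ∃ C : ℝ, 0 ≤ C ∧ μ.map (φ ∘ f) ≤ ENNReal.ofReal C • μ := by
  obtain ⟨C, hC, hle⟩ := h
  refine ⟨2 * C, by positivity, ?_⟩
  rw [← Measure.map_map hφ hf]
  calc (μ.map f).map φ ≤ (2 • μ).map φ := Measure.map_mono h2 hφ
    _ = 2 • μ.map φ := by
      rw [two_nsmul, two_nsmul, Measure.map_add _ _ hφ]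
    _ ≤ 2 • (ENNReal.ofReal C • μ) := by
      rw [two_nsmul, two_nsmul]; exact add_le_add hle hle
    _ = ENNReal.ofReal (2 * C) • μ := by
      rw [ENNReal.ofReal_mul (by norm_num), two_nsmul, ← add_smul, ENNReal.ofReal_ofNat, two_mul]

theorem Brn.comp0 {φ : ℝ → ℝ} {α β γ δ : ℝ} (h : Brn μ φ α β γ δ) (h2 : μ.map f0 ≤ 2 • μ) :
    Brn μ (φ ∘ f0) (α + β) β (γ + δ) δ := by
  have hδ := h.δ1
  have hγ := h.γ0
  refine ⟨h.meas.comp measurable_f0, fun s hs => h.maps _ (f0_mem hs), ?_, ?_, by linarith, hδ,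
    dom_comp h.meas measurable_f0 h2 h.dom⟩
  · intro s hs
    have hs1 := hs.1
    rw [Function.comp, h.form _ (f0_mem hs)]
    unfold f0
    have h1 : 1 + s ≠ 0 := by positivity
    have h3 : γ * (s / (1 + s)) + δ ≠ 0 := by positivity
    have h4 : (γ + δ) * s + δ ≠ 0 := by positivity
    field_simp
    ring
  · rw [← h.det]; congr 1; ring

theorem Brn.comp1 {φ : ℝ → ℝ} {α β γ δ : ℝ} (h : Brn μ φ α β γ δ) (h2 : μ.map f1 ≤ 2 • μ) :
    Brn μ (φ ∘ f1) β (α + β) δ (γ + δ) := by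
  have hδ := h.δ1
  have hγ := h.γ0
  refine ⟨h.meas.comp measurable_f1, fun s hs => h.maps _ (f1_mem hs), ?_, ?_, by linarith,
    by linarith, dom_comp h.meas measurable_f1 h2 h.dom⟩
  · intro s hs
    have hs1 := hs.1
    rw [Function.comp, h.form _ (f1_mem hs)]
    unfold f1
    have h1 : 1 + s ≠ 0 := by positivity
    have h3 : γ * (1 / (1 + s)) + δ ≠ 0 := by positivity
    have h4 : δ * s + (γ + δ) ≠ 0 := by positivity
    field_simp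
    ring
  · rw [← h.det, ← abs_neg]; congr 1; ring

theorem Brn.diff {φ : ℝ → ℝ} {α β γ δ : ℝ} (h : Brn μ φ α β γ δ) {s t : ℝ}
    (hs : s ∈ Icc (0 : ℝ) 1) (ht : t ∈ Icc (0 : ℝ) 1) :
    |φ s - φ t| * ((γ * s + δ) * (γ * t + δ)) = |s - t| := by
  have hδ := h.δ1
  have hγ := h.γ0
  have hs1 := hs.1
  have ht1 := ht.1
  have h3 : γ * s + δ ≠ 0 := by positivity
  have h4 : γ * t + δ ≠ 0 := by positivity
  rw [h.form s hs, h.form t ht]
  have : (α * s + β) / (γ * s + δ) - (α * t + β) / (γ * t + δ) =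
      (α * δ - β * γ) * (s - t) / ((γ * s + δ) * (γ * t + δ)) := by
    field_simp; ring
  rw [this, abs_div, abs_mul, h.det, one_mul,
    abs_of_pos (show 0 < (γ * s + δ) * (γ * t + δ) by positivity)]
  field_simp

theorem Brn.small {φ : ℝ → ℝ} {α β γ δ R : ℝ} (h : Brn μ φ α β γ δ) (hR : 0 < R)
    (hd : R ≤ δ * (γ + δ)) {s t : ℝ}
    (hs : s ∈ Icc (0 : ℝ) 1) (ht : t ∈ Icc (0 : ℝ) 1) : |φ s - φ t| ≤ 1 / R := by
  wlog hst : s ≤ t generalizing s t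
  · rw [abs_sub_comm]; exact this ht hs (le_of_not_ge hst)
  have hδ := h.δ1
  have hγ := h.γ0
  have hs1 := hs.1
  have ht1 := ht.1
  have e := h.diff hs ht
  have hab : |s - t| = t - s := by rw [abs_sub_comm]; exact abs_of_nonneg (by linarith)
  rw [hab] at e
  rw [le_div_iff₀ hR]
  have h1 : (t - s) * R ≤ (γ * s + δ) * (γ * t + δ) := by
    calc (t - s) * R ≤ t * (δ * (γ + δ)) := by
          apply mul_le_mul (by linarith) hd hR.le ht1
      _ = δ * (γ * t + δ * t) := by ring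
      _ ≤ δ * (γ * t + δ) := by
          apply mul_le_mul_of_nonneg_left _ (by linarith)
          nlinarith [ht.2]
      _ ≤ (γ * s + δ) * (γ * t + δ) := by
          apply mul_le_mul_of_nonneg_right _ (by positivity)
          nlinarith
  have hpos : 0 < (γ * s + δ) * (γ * t + δ) := by positivity
  have h2 : |φ s - φ t| * R * ((γ * s + δ) * (γ * t + δ)) ≤ 1 * ((γ * s + δ) * (γ * t + δ)) := by
    calc |φ s - φ t| * R * ((γ * s + δ) * (γ * t + δ))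
        = (|φ s - φ t| * ((γ * s + δ) * (γ * t + δ))) * R := by ring
      _ = (t - s) * R := by rw [e]
      _ ≤ _ := by rw [one_mul]; exact h1
  exact le_of_mul_le_mul_right h2 hpos

theorem Brn.big {φ : ℝ → ℝ} {α β γ δ R : ℝ} (h : Brn μ φ α β γ δ)
    (hd : γ + δ ≤ 2 * R) {s t : ℝ}
    (hs : s ∈ Icc (0 : ℝ) 1) (ht : t ∈ Icc (0 : ℝ) 1) :
    |s - t| ≤ (2 * R) ^ 2 * |φ s - φ t| := by
  have hδ := h.δ1
  have hγ := h.γ0
  have hs1 := hs.1
  have ht1 := ht.1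
  rw [← h.diff hs ht, mul_comm]
  apply mul_le_mul_of_nonneg_right _ (abs_nonneg _)
  have a1 : γ * s + δ ≤ 2 * R := by nlinarith [hs.2]
  have a2 : γ * t + δ ≤ 2 * R := by nlinarith [ht.2]
  calc (γ * s + δ) * (γ * t + δ) ≤ (2 * R) * (2 * R) := by
        apply mul_le_mul a1 a2 (by positivity) (by linarith)
    _ = _ := by ring

theorem split01 {t : ℝ} (ht : t ∈ Icc (0 : ℝ) 1) :
    (∃ u ∈ Icc (0 : ℝ) 1, f0 u = t) ∨ (∃ u ∈ Icc (0 : ℝ) 1, f1 u = t) := by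
  rcases le_total t (1 / 2) with h | h
  · left
    have h1 : (1 - t) ≠ 0 := by linarith
    refine ⟨t / (1 - t), ⟨div_nonneg ht.1 (by linarith), ?_⟩, ?_⟩
    · rw [div_le_one (by linarith)]; linarith
    · unfold f0; field_simp; ring
  · right
    have h1 : 0 < t := by linarith
    refine ⟨(1 - t) / t, ⟨div_nonneg (by linarith [ht.2]) h1.le, ?_⟩, ?_⟩
    · rw [div_le_one h1]; linarith
    · unfold f1; field_simp; ring

theorem branch_aux (h0 : μ.map f0 ≤ 2 • μ) (h1 : μ.map f1 ≤ 2 • μ) {x : ℝ}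
    (hx : x ∈ Icc (0 : ℝ) 1) {R : ℝ} (hR : 1 ≤ R) (n : ℕ) :
    ∃ (φ : ℝ → ℝ) (α β γ δ : ℝ), Brn μ φ α β γ δ ∧ (∃ t ∈ Icc (0 : ℝ) 1, φ t = x) ∧
      ((R ≤ δ * (γ + δ) ∧ γ + δ ≤ 2 * R) ∨ ((n : ℝ) + 1 ≤ γ + δ ∧ δ * (γ + δ) < R)) := by
  induction n with
  | zero =>
    refine ⟨id, 1, 0, 0, 1, ⟨measurable_id, fun s hs => hs, fun s hs => by simp, by simp, le_rfl,
      le_rfl, 1, zero_le_one, ?_⟩, ⟨x, hx, rfl⟩, ?_⟩
    · simp
    · rcases lt_or_ge 1 R with h | h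
      · right; constructor <;> simp [h]
      · left; constructor <;> linarith
  | succ n ih =>
    obtain ⟨φ, α, β, γ, δ, hB, ⟨t, ht, hφt⟩, hc⟩ := ih
    rcases hc with hc | ⟨hc1, hc2⟩
    · exact ⟨φ, α, β, γ, δ, hB, ⟨t, ht, hφt⟩, Or.inl hc⟩
    · have hδ := hB.δ1
      have hγ := hB.γ0
      have hub : γ + 2 * δ ≤ 2 * R := by nlinarith
      rcases split01 ht with ⟨u, hu, hut⟩ | ⟨u, hu, hut⟩
      · refine ⟨φ ∘ f0, _, _, _, _, hB.comp0 h0, ⟨u, hu, by rw [Function.comp, hut, hφt]⟩, ?_⟩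
        rcases le_or_gt R (δ * (γ + δ + δ)) with h | h
        · left; exact ⟨h, by linarith⟩
        · right; refine ⟨?_, h⟩; push_cast; linarith
      · refine ⟨φ ∘ f1, _, _, _, _, hB.comp1 h1, ⟨u, hu, by rw [Function.comp, hut, hφt]⟩, ?_⟩
        rcases le_or_gt R ((γ + δ) * (δ + (γ + δ))) with h | h
        · left; exact ⟨h, by linarith⟩
        · right; refine ⟨?_, h⟩; push_cast; linarith

/-- a branch through `x` at scale `1/R` -/
theorem branch (h0 : μ.map f0 ≤ 2 • μ) (h1 : μ.map f1 ≤ 2 • μ) {x : ℝ}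
    (hx : x ∈ Icc (0 : ℝ) 1) {R : ℝ} (hR : 1 ≤ R) :
    ∃ φ : ℝ → ℝ, Measurable φ ∧ (∀ s ∈ Icc (0 : ℝ) 1, φ s ∈ Icc (0 : ℝ) 1) ∧
      (∃ t ∈ Icc (0 : ℝ) 1, φ t = x) ∧
      (∀ s ∈ Icc (0 : ℝ) 1, ∀ t ∈ Icc (0 : ℝ) 1, |φ s - φ t| ≤ 1 / R) ∧
      (∀ s ∈ Icc (0 : ℝ) 1, ∀ t ∈ Icc (0 : ℝ) 1, |s - t| ≤ (2 * R) ^ 2 * |φ s - φ t|) ∧
      ContinuousOn φ (Icc 0 1) ∧
      ∃ C : ℝ, 0 ≤ C ∧ μ.map φ ≤ ENNReal.ofReal C • μ := by
  obtain ⟨n, hn⟩ := exists_nat_ge R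
  obtain ⟨φ, α, β, γ, δ, hB, ht, hc⟩ := branch_aux h0 h1 hx hR n
  have hδ := hB.δ1
  have hγ := hB.γ0
  rcases hc with ⟨hc1, hc2⟩ | ⟨hc1, hc2⟩
  · refine ⟨φ, hB.meas, hB.maps, ht, fun s hs t ht => hB.small (by linarith) hc1 hs ht,
      fun s hs t ht => hB.big hc2 hs ht, ?_, hB.dom⟩
    have : ContinuousOn (fun s => (α * s + β) / (γ * s + δ)) (Icc 0 1) := by
      apply ContinuousOn.div (by fun_prop) (by fun_prop)
      intro s hs
      have := hs.1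
      positivity
    exact this.congr hB.form
  · exfalso
    nlinarith

end Pool.Agent.R263.MQ
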