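import Mathlib

/-!
# Minkowski's question mark measure: definitions

`gauss` is the Gauss map, `pq x k` the `(k+1)`-st partial quotient of `x ∈ [0,1]`, `qm` Minkowski's
question mark function on `[0,1]` (Denjoy's formula), `IsMinkowski μ` says that `μ` is the
probability measure on `[0,1]` with distribution function `qm`. Capacity is defined through
logarithmic energies.
-/

namespace Pool.Agent.R263.MQ

open MeasureTheory Set Real

/-- The Gauss map `x ↦ 1/x - ⌊1/x⌋` (and `0 ↦ 0`). -/
noncomputable def gauss (x : ℝ) : ℝ := Int.fract x⁻¹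

/-- `pq x k` is the partial quotient `a_{k+1}` of `x = [0; a₁, a₂, …]` (as long as the expansion
has not stopped, i.e. `gauss^[k] x ≠ 0`). -/
noncomputable def pq (x : ℝ) (k : ℕ) : ℕ := ⌊(gauss^[k] x)⁻¹⌋₊

/-- Minkowski's question mark function on `[0,1]`:
`2 ∑_{k ≥ 1} (-1)^{k+1} / 2^{a₁ + ⋯ + a_k}`, the sum being finite for rational `x`. -/
noncomputable def qm (x : ℝ) : ℝ :=
  2 * ∑' k : ℕ, if gauss^[k] x = 0 then 0 else (-1 : ℝ) ^ k / 2 ^ (∑ i ∈ Finset.range (k + 1), pq x i)

/-- `μ` is the Borel probability measure on `[0,1]` with distribution function `qm`. -/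
structure IsMinkowski (μ : Measure ℝ) : Prop where
  prob : IsProbabilityMeasure μ
  supp : μ (Icc (0 : ℝ) 1)ᶜ = 0
  cdf : ∀ x ∈ Icc (0 : ℝ) 1, μ.real (Icc 0 x) = qm x

/-- the two maps of the iterated function system -/
noncomputable def f0 (x : ℝ) : ℝ := x / (1 + x)
noncomputable def f1 (x : ℝ) : ℝ := 1 / (1 + x)

/-- `ν` is a probability measure on `K` of finite logarithmic energy. (A measure with a point mass
has infinite energy, hence the condition that points are null; without it `log |x - x| = 0` in Lean would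
interfere.) -/
structure FinEnergy (K : Set ℝ) (ν : Measure ℝ) : Prop where
  prob : IsProbabilityMeasure ν
  supp : ν Kᶜ = 0
  noAtoms : NullSingletonClass ν
  int : Integrable (fun p : ℝ × ℝ => Real.log |p.1 - p.2|) (ν.prod ν)

/-- `logI ν = ∬ log |x - y| dν dν`, minus the logarithmic energy -/
noncomputable def logI (ν : Measure ℝ) : ℝ := ∫ p : ℝ × ℝ, Real.log |p.1 - p.2| ∂(ν.prod ν)

/-- logarithmic capacity of a compact set `K` of reals: the supremum of `exp (-I(ν))` over the
probability measures `ν` on `K` of finite energy `I(ν)`, and `0` if there is no such measure -/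
noncomputable def capK (K : Set ℝ) : ℝ :=
  sSup (insert 0 {t : ℝ | ∃ ν : Measure ℝ, FinEnergy K ν ∧ t = Real.exp (logI ν)})

/-- (inner) capacity of a Borel set: supremum of the capacities of its compact subsets; it may be
`⊤` -/
noncomputable def capB (B : Set ℝ) : EReal :=
  ⨆ (K : Set ℝ) (_ : K ⊆ B ∧ IsCompact K), ((capK K : ℝ) : EReal)

/-- the minimal carrier capacity -/
noncomputable def minCarrierCap (μ : Measure ℝ) : EReal :=
  ⨅ (B : Set ℝ) (_ : MeasurableSet B ∧ μ Bᶜ = 0), capB B

open Polynomial in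
/-- `p n` are the orthonormal polynomials of `μ` with positive leading coefficients, `a n`, `b n`
their recurrence coefficients: `x p_n = a_{n+1} p_{n+1} + b_n p_n + a_n p_{n-1}`, `p_{-1} = 0`. -/
structure OrthoSystem (μ : Measure ℝ) (p : ℕ → ℝ[X]) (a b : ℕ → ℝ) : Prop where
  deg : ∀ n, (p n).natDegree = n
  lead : ∀ n, 0 < (p n).leadingCoeff
  ortho : ∀ m n, ∫ x, (p m).eval x * (p n).eval x ∂μ = if m = n then 1 else 0
  recur : ∀ n, X * p n = C (a (n + 1)) * p (n + 1) + C (b n) * p n +
    C (a n) * (if n = 0 then 0 else p (n - 1))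

/-- `μ` dominates (up to constants) probability measures whose potentials are bounded by
`log 4 + ε` on `[0,1]` -/
def LowPot (μ : Measure ℝ) : Prop :=
  ∀ ε > 0, ∃ (ν : Measure ℝ) (C : ℝ), IsProbabilityMeasure ν ∧ ν (Icc (0 : ℝ) 1)ᶜ = 0 ∧
    ν ≤ ENNReal.ofReal C • μ ∧
    ∀ z ∈ Icc (0 : ℝ) 1, Integrable (fun x => Real.log |x - z|) ν ∧
      -Real.log 4 - ε ≤ ∫ x, Real.log |x - z| ∂ν

end Pool.Agent.R263.MQ
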