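import Pool.Agent.R263.MQ.Br

/-! Measures with almost extremal potentials dominated by `μ`. -/

namespace Pool.Agent.R263.MQ

open MeasureTheory Set Real Finset

/-- statement about the Chebyshev nodes -/
def Nodes : Prop := ∀ N : ℕ, 1 ≤ N → ∃ x : Fin N → ℝ, (∀ i, x i ∈ Icc (0 : ℝ) 1) ∧
    (∀ z ∈ Icc (0 : ℝ) 1, ∏ i, |z - x i| ≤ 2 * (1 / 4) ^ N) ∧
    ∀ z ∈ Icc (0 : ℝ) 1, ∃ j, (∀ k, k ≠ j → 1 / (4 * (N : ℝ) ^ 2) ≤ |z - x k|) ∧
      (1 / 4 : ℝ) ^ N ≤ ∏ k ∈ Finset.univ.erase j, |z - x k|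

/-- the point of a branch interval nearest to `z` -/
theorem nearest {φ : ℝ → ℝ} (hc : ContinuousOn φ (Icc 0 1)) (z : ℝ) :
    ∃ t ∈ Icc (0 : ℝ) 1, ∀ s ∈ Icc (0 : ℝ) 1, |φ s - φ t| ≤ |φ s - z| := by
  obtain ⟨t, ht, hmin⟩ := isCompact_Icc.exists_isMinOn (nonempty_Icc.2 zero_le_one)
    ((hc.sub continuousOn_const).abs : ContinuousOn (fun s => |φ s - z|) (Icc (0 : ℝ) 1))
  refine ⟨t, ht, fun s hs => ?_⟩
  have h1 : |φ t - z| ≤ |φ s - z| := hmin hs
  by_cases h0 : φ t = z
  · rw [h0]
  · -- same side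
    have hside : ¬ (z ∈ Set.uIcc (φ s) (φ t)) := by
      intro hz
      have := intermediate_value_uIcc (hc.mono (Set.uIcc_subset_Icc hs ht)) hz
      obtain ⟨u, hu, huz⟩ := this
      have hu' : u ∈ Icc (0 : ℝ) 1 := (Set.uIcc_subset_Icc hs ht) hu
      have h2 : |φ t - z| ≤ |φ u - z| := hmin hu'
      rw [huz, sub_self, abs_zero] at h2
      exact h0 (by linarith [abs_eq_zero.1 (le_antisymm h2 (abs_nonneg _))])
    rw [Set.mem_uIcc] at hside
    push Not at hside
    obtain ⟨ha, hb⟩ := hside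
    rcases le_total (φ t) z with h | h
    · have hs' : φ s < z := by
        by_contra h'
        push Not at h'
        exact absurd (hb h) (not_lt.2 h')
      rw [abs_of_nonpos (by linarith : φ t - z ≤ 0), abs_of_nonpos (by linarith : φ s - z ≤ 0)] at h1
      rw [abs_of_nonpos (by linarith : φ s - z ≤ 0), abs_of_nonpos (by linarith)]
      linarith
    · have hs' : z < φ s := by
        by_contra h'
        push Not at h'
        exact absurd (ha h') (not_lt.2 h)
      rw [abs_of_nonneg (by linarith : 0 ≤ φ t - z), abs_of_nonneg (by linarith : 0 ≤ φ s - z)] at h1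
      rw [abs_of_nonneg (by linarith : 0 ≤ φ s - z), abs_of_nonneg (by linarith)]
      linarith

section

variable {μ : Measure ℝ} (hsup : μ (Icc (0 : ℝ) 1)ᶜ = 0) (hnull : NullSingletonClass μ)
  (hprob : IsProbabilityMeasure μ) {S : ℝ}
  (hpot : ∀ z ∈ Icc (0 : ℝ) 1, Integrable (fun x => Real.log |x - z|) μ ∧
    -S ≤ ∫ x, Real.log |x - z| ∂μ)

include hsup hnull hprob hpot in
theorem near_pot {φ : ℝ → ℝ} (hm : Measurable φ) (hmaps : ∀ s ∈ Icc (0 : ℝ) 1, φ s ∈ Icc (0 : ℝ) 1)
    (hc : ContinuousOn φ (Icc 0 1)) {R : ℝ} (hR : 1 ≤ R)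
    (hbig : ∀ s ∈ Icc (0 : ℝ) 1, ∀ t ∈ Icc (0 : ℝ) 1, |s - t| ≤ (2 * R) ^ 2 * |φ s - φ t|)
    {z : ℝ} (hz : z ∈ Icc (0 : ℝ) 1) :
    Integrable (fun s => Real.log |φ s - z|) μ ∧
      -S - 2 * Real.log (2 * R) ≤ ∫ s, Real.log |φ s - z| ∂μ := by
  obtain ⟨t, ht, hn⟩ := nearest hc z
  obtain ⟨hi, hb⟩ := hpot t ht
  have hne : ∀ᵐ s ∂μ, s ≠ t := by rw [ae_iff]; simp
  have hlow : ∀ᵐ s ∂μ, Real.log |s - t| - 2 * Real.log (2 * R) ≤ Real.log |φ s - z| := by
    filter_upwards [ae_mem hsup, hne] with s hs hst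
    have hpos : 0 < |s - t| := by simpa [sub_eq_zero] using hst
    have h1 : |s - t| ≤ (2 * R) ^ 2 * |φ s - z| :=
      (hbig s hs t ht).trans (mul_le_mul_of_nonneg_left (hn s hs) (by positivity))
    have h2 := log_le_aux hpos (c := (2 * R) ^ 2) (by positivity) h1
    rw [Real.log_pow] at h2
    push_cast at h2
    linarith
  have hup : ∀ᵐ s ∂μ, Real.log |φ s - z| ≤ 0 := by
    filter_upwards [ae_mem hsup] with s hs
    have hφ := hmaps s hs
    exact Real.log_nonpos (abs_nonneg _) (abs_le.2 ⟨by linarith [hφ.1, hz.2], by linarith [hφ.2, hz.1]⟩)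
  have hg : Integrable (fun s => Real.log |s - t| - 2 * Real.log (2 * R)) μ := hi.sub (integrable_const _)
  have hmeas : Measurable fun s => Real.log |φ s - z| :=
    Real.measurable_log.comp (hm.sub_const z).abs
  have hint : Integrable (fun s => Real.log |φ s - z|) μ := by
    refine hg.mono hmeas.aestronglyMeasurable ?_
    filter_upwards [hlow, hup] with s h1 h2
    rw [Real.norm_of_nonpos h2, Real.norm_of_nonpos (by linarith)]
    linarith
  refine ⟨hint, ?_⟩
  have := integral_mono_ae hg hint hlow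
  rw [integral_sub hi (integrable_const _)] at this
  simp only [integral_const, probReal_univ, smul_eq_mul, one_mul] at this
  linarith

include hsup hprob in
theorem far_pot {φ : ℝ → ℝ} {x z R : ℝ} (hR : 0 < R)
    (hx : ∃ t ∈ Icc (0 : ℝ) 1, φ t = x)
    (hsmall : ∀ s ∈ Icc (0 : ℝ) 1, ∀ t ∈ Icc (0 : ℝ) 1, |φ s - φ t| ≤ 1 / R)
    {d : ℝ} (hd : 0 < d) (hdz : d ≤ |z - x|) (hdR : 2 ≤ d * R)
    (hint : Integrable (fun s => Real.log |φ s - z|) μ) :
    Real.log |z - x| - 2 / (d * R) ≤ ∫ s, Real.log |φ s - z| ∂μ := by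
  obtain ⟨t, ht, rfl⟩ := hx
  have hlow : ∀ᵐ s ∂μ, Real.log |z - φ t| - 2 / (d * R) ≤ Real.log |φ s - z| := by
    filter_upwards [ae_mem hsup] with s hs
    have h1 := hsmall s hs t ht
    have h2 : |z - φ t| - 1 / R ≤ |φ s - z| := by
      have : |z - φ t| ≤ |z - φ s| + |φ s - φ t| := abs_sub_le z (φ s) (φ t)
      rw [abs_sub_comm z (φ s)] at this
      linarith
    set D := |z - φ t| with hD
    have hDp : 0 < D := hd.trans_le hdz
    have h3 : 1 / R ≤ D / 2 := by
      rw [div_le_iff₀ hR]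
      nlinarith
    have h4 : D * (1 - 1 / (d * R)) ≤ |φ s - z| := by
      refine le_trans ?_ h2
      have : 1 / R ≤ D * (1 / (d * R)) := by
        rw [show D * (1 / (d * R)) = (D / d) * (1 / R) by field_simp]
        have : 1 ≤ D / d := by rw [le_div_iff₀ hd]; linarith
        nlinarith [one_div_pos.2 hR]
      linarith
    have hu : 1 / (d * R) ≤ 1 / 2 := one_div_le_one_div_of_le (by norm_num) hdR
    have hupos : 0 < 1 - 1 / (d * R) := by linarith
    have h5 := Real.log_le_log (by positivity) h4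
    rw [Real.log_mul hDp.ne' hupos.ne'] at h5
    have h6 : -(2 / (d * R)) ≤ Real.log (1 - 1 / (d * R)) := by
      have h7 := Real.one_sub_inv_le_log_of_pos hupos
      have h8 : 1 - (1 - 1 / (d * R))⁻¹ ≥ -(2 / (d * R)) := by
        have hw : 0 < 1 / (d * R) := by positivity
        set w := 1 / (d * R) with hw'
        have : 2 / (d * R) = 2 * w := by rw [hw']; ring
        rw [this]
        have : (1 - w)⁻¹ ≤ 1 + 2 * w := by
          rw [inv_le_comm₀ hupos (by positivity)]
          rw [inv_le_iff_one_le_mul₀ (by positivity)]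
          nlinarith
        linarith
      linarith
    linarith
  have := integral_mono_ae (integrable_const _) hint hlow
  simpa using this

end

theorem lowPot {μ : Measure ℝ} (hsup : μ (Icc (0 : ℝ) 1)ᶜ = 0) (hnull : NullSingletonClass μ)
    (hprob : IsProbabilityMeasure μ) (hss : μ.map f0 + μ.map f1 = 2 • μ) (hnodes : Nodes) :
    LowPot μ := by
  have h0 : μ.map f0 ≤ 2 • μ := hss ▸ Measure.le_add_right le_rfl
  have h1 : μ.map f1 ≤ 2 • μ := hss ▸ Measure.le_add_left le_rfl
  have hpot := fun z hz => pot_bound hsup hnull hss hprob z hz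
  set S : ℝ := 6 * Real.log 2 with hS
  intro ε hε
  -- choice of N
  obtain ⟨N, hN1, hNε⟩ : ∃ N : ℕ, 1 ≤ N ∧
      1 + S + 2 * Real.log (2 * (8 * (N : ℝ) ^ 3)) ≤ ε * N := by
    have ht : Filter.Tendsto (fun N : ℕ => (1 + S + 2 * Real.log (2 * (8 * (N : ℝ) ^ 3))) / N)
        Filter.atTop (nhds 0) := by
      have e : ∀ᶠ N : ℕ in Filter.atTop, (1 + S + 2 * Real.log 16) * (1 / (N : ℝ)) + 6 * (Real.log N / N) =
          (1 + S + 2 * Real.log (2 * (8 * (N : ℝ) ^ 3))) / N := by
        filter_upwards [Filter.eventually_ge_atTop 1] with N hN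
        have hNp : (0 : ℝ) < N := by exact_mod_cast hN
        rw [show 2 * (8 * (N : ℝ) ^ 3) = 16 * (N : ℝ) ^ 3 by ring, Real.log_mul (by norm_num) (by positivity),
          Real.log_pow]
        push_cast
        ring
      refine Filter.Tendsto.congr' e ?_
      have t1 : Filter.Tendsto (fun N : ℕ => 1 / (N : ℝ)) Filter.atTop (nhds 0) :=
        tendsto_one_div_atTop_nhds_zero_nat
      have t2 : Filter.Tendsto (fun N : ℕ => Real.log N / (N : ℝ)) Filter.atTop (nhds 0) := by
        have := (Real.isLittleO_log_id_atTop.tendsto_div_nhds_zero).comp tendsto_natCast_atTop_atTop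
        simpa [Function.comp_def] using this
      simpa using (t1.const_mul (1 + S + 2 * Real.log 16)).add (t2.const_mul 6)
    have := (ht.eventually (gt_mem_nhds hε)).and (Filter.eventually_ge_atTop 1)
    obtain ⟨N, hN, hN1⟩ := this.exists
    refine ⟨N, hN1, ?_⟩
    have hNp : (0 : ℝ) < N := by exact_mod_cast hN1
    rw [div_lt_iff₀ hNp] at hN
    exact hN.le
  have hNp : (0 : ℝ) < N := by exact_mod_cast hN1
  have hN1' : (1 : ℝ) ≤ N := by exact_mod_cast hN1
  set R : ℝ := 8 * (N : ℝ) ^ 3 with hRdef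
  have hR1 : 1 ≤ R := by
    have : (1 : ℝ) ≤ (N : ℝ) ^ 3 := one_le_pow₀ hN1'
    linarith
  obtain ⟨x, hx01, -, hx⟩ := hnodes N hN1
  choose φ hφm hφmaps hφx hφs hφb hφc C hC hCle using fun k => branch h0 h1 (hx01 k) hR1
  -- the measure
  refine ⟨ENNReal.ofReal (1 / N) • ∑ k, μ.map (φ k), (1 / N) * ∑ k, C k, ?_, ?_, ?_, ?_⟩
  · constructor
    have : ∀ k, μ.map (φ k) univ = 1 := fun k => by
      rw [Measure.map_apply (hφm k) MeasurableSet.univ]; simp
    simp only [Measure.smul_apply, Measure.finsetSum_apply, this, Finset.sum_const,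
      Finset.card_univ, Fintype.card_fin, smul_eq_mul, nsmul_eq_mul, mul_one]
    rw [← ENNReal.ofReal_natCast, ← ENNReal.ofReal_mul (by positivity)]
    rw [one_div, inv_mul_cancel₀ hNp.ne', ENNReal.ofReal_one]
  · have : ∀ k, μ.map (φ k) (Icc (0 : ℝ) 1)ᶜ = 0 := fun k => by
      rw [Measure.map_apply (hφm k) measurableSet_Icc.compl]
      refine measure_mono_null ?_ hsup
      intro s hs hs'
      exact hs (hφmaps k s hs')
    simp [Measure.smul_apply, Measure.finsetSum_apply, this]
  · rw [ENNReal.ofReal_mul (by positivity), mul_smul]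
    have hle : ∑ k, μ.map (φ k) ≤ ENNReal.ofReal (∑ k, C k) • μ := by
      rw [ENNReal.ofReal_sum_of_nonneg (fun k _ => hC k), Finset.sum_smul]
      exact Finset.sum_le_sum fun k _ => hCle k
    rw [Measure.le_iff]
    intro s _
    rw [Measure.smul_apply, Measure.smul_apply]
    exact mul_le_mul_right (hle s) _
  · intro z hz
    obtain ⟨j, hj1, hj2⟩ := hx z hz
    have hint : ∀ k, Integrable (fun s => Real.log |φ k s - z|) μ := fun k =>
      (near_pot hsup hnull hprob hpot (hφm k) (hφmaps k) (hφc k) hR1 (hφb k) hz).1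
    have hnear := (near_pot hsup hnull hprob hpot (hφm j) (hφmaps j) (hφc j) hR1 (hφb j) hz).2
    have hmz : Measurable fun y : ℝ => Real.log |y - z| :=
      Real.measurable_log.comp (measurable_id.sub_const z).abs
    have hintk : ∀ k, Integrable (fun y => Real.log |y - z|) (μ.map (φ k)) := fun k => by
      rw [integrable_map_measure hmz.aestronglyMeasurable (hφm k).aemeasurable]
      exact hint k
    have hIk : ∀ k, ∫ y, Real.log |y - z| ∂(μ.map (φ k)) = ∫ s, Real.log |φ k s - z| ∂μ := fun k => by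
      rw [integral_map (hφm k).aemeasurable hmz.aestronglyMeasurable]
    have hsumint : Integrable (fun y => Real.log |y - z|) (∑ k, μ.map (φ k)) := by
      rw [integrable_finsetSum_measure]
      exact fun k _ => hintk k
    refine ⟨hsumint.smul_measure ENNReal.ofReal_ne_top, ?_⟩
    rw [integral_smul_measure, ENNReal.toReal_ofReal (by positivity), integral_finsetSum_measure
      (fun k _ => hintk k)]
    simp_rw [hIk]
    have hfar : ∀ k ∈ Finset.univ.erase j, Real.log |z - x k| - 1 / N ≤ ∫ s, Real.log |φ k s - z| ∂μ := by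
      intro k hk
      have hkj := (Finset.mem_erase.1 hk).1
      have hd : (0 : ℝ) < 1 / (4 * (N : ℝ) ^ 2) := by positivity
      have e : 1 / (4 * (N : ℝ) ^ 2) * R = 2 * N := by rw [hRdef]; field_simp; ring
      have := far_pot hsup hprob (by linarith) (hφx k) (hφs k) hd (hj1 k hkj) (by rw [e]; linarith)
        (hint k)
      rw [e] at this
      have e2 : 2 / (2 * (N : ℝ)) = 1 / N := by field_simp
      rw [e2] at this
      exact this
    have hsum : ∑ k ∈ Finset.univ.erase j, (Real.log |z - x k| - 1 / N) + (-S - 2 * Real.log (2 * R)) ≤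
        ∑ k, ∫ s, Real.log |φ k s - z| ∂μ := by
      rw [← Finset.sum_erase_add _ _ (Finset.mem_univ j)]
      exact add_le_add (Finset.sum_le_sum hfar) hnear
    have hprod : (N : ℝ) * -Real.log 4 ≤ ∑ k ∈ Finset.univ.erase j, Real.log |z - x k| := by
      have hne : ∀ k ∈ Finset.univ.erase j, |z - x k| ≠ 0 := by
        intro k hk
        have hkj := (Finset.mem_erase.1 hk).1
        have hd : (0 : ℝ) < 1 / (4 * (N : ℝ) ^ 2) := by positivity
        exact (hd.trans_le (hj1 k hkj)).ne'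
      rw [← Real.log_prod hne]
      have := Real.log_le_log (by positivity) hj2
      rw [Real.log_pow, one_div, Real.log_inv] at this
      linarith
    have hcard : (∑ _k ∈ Finset.univ.erase j, (1 / N : ℝ)) ≤ 1 := by
      rw [Finset.sum_const, Finset.card_erase_of_mem (Finset.mem_univ j)]
      simp only [Finset.card_univ, Fintype.card_fin, nsmul_eq_mul]
      rw [mul_one_div, div_le_one hNp]
      exact_mod_cast Nat.sub_le N 1
    rw [Finset.sum_sub_distrib] at hsum
    rw [smul_eq_mul, one_div, inv_mul_eq_div, le_div_iff₀ hNp]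
    have : (-Real.log 4 - ε) * N ≤ (N : ℝ) * -Real.log 4 - 1 + (-S - 2 * Real.log (2 * R)) := by
      nlinarith
    linarith

end Pool.Agent.R263.MQ
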