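import Mathlib
import Pool.Agent.R263.MQ.Defs

/-!
# Logarithmic energy on `[0,1]` is at least `log 4` (MP_bff676_an, task MQ-F)
-/

namespace Pool.Agent.R263.MQ

open MeasureTheory Set Real Polynomial

/-- Chebyshev polynomials of `[0,1]`, monic -/
noncomputable def mqfP (j : ℕ) : ℝ[X] :=
  if j = 0 then 1 else C (2 * (1 / 4) ^ j) * (Chebyshev.T ℝ (j : ℤ)).comp (C 2 * X - 1)

lemma mqf_lin_deg : (C 2 * X - 1 : ℝ[X]).natDegree = 1 := by
  have : (C 2 * X - 1 : ℝ[X]) = C 2 * X + C (-1) := by simp [sub_eq_add_neg]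
  rw [this]
  exact natDegree_linear (by norm_num)

lemma mqf_lin_lead : (C 2 * X - 1 : ℝ[X]).leadingCoeff = 2 := by
  have : (C 2 * X - 1 : ℝ[X]) = C 2 * X + C (-1) := by simp [sub_eq_add_neg]
  rw [this]
  exact leadingCoeff_linear (by norm_num)

lemma mqfP_natDegree (j : ℕ) : (mqfP j).natDegree = j := by
  unfold mqfP
  split_ifs with h
  · simp [h]
  · rw [natDegree_C_mul (by positivity), natDegree_comp, mqf_lin_deg, Chebyshev.natDegree_T]
    simp

lemma mqfP_monic (j : ℕ) : (mqfP j).Monic := by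
  unfold mqfP
  split_ifs with h
  · exact monic_one
  · rw [Monic, leadingCoeff_mul, leadingCoeff_C, leadingCoeff_comp (by rw [mqf_lin_deg]; norm_num),
      mqf_lin_lead, Chebyshev.leadingCoeff_T, Chebyshev.natDegree_T]
    obtain ⟨m, rfl⟩ := Nat.exists_eq_succ_of_ne_zero h
    simp only [Int.natAbs_natCast, Nat.succ_eq_add_one, Nat.add_sub_cancel]
    have h4 : (4:ℝ) ^ (m + 1) = 2 ^ (m + 1) * 2 ^ (m + 1) := by
      rw [← mul_pow]; norm_num
    rw [one_div, inv_pow, h4]
    field_simp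
    ring

lemma mqfP_bound (j : ℕ) {x : ℝ} (hx : x ∈ Icc (0:ℝ) 1) :
    |(mqfP j).eval x| ≤ 2 * (1 / 4) ^ j := by
  unfold mqfP
  split_ifs with h
  · rw [h]; simp
  · rw [eval_mul, eval_C, eval_comp, abs_mul, abs_of_pos (by positivity)]
    refine mul_le_of_le_one_right (by positivity) (Chebyshev.abs_eval_T_real_le_one _ ?_)
    simp only [eval_sub, eval_mul, eval_C, eval_X, eval_one]
    rw [abs_le]
    constructor <;> linarith [hx.1, hx.2]

lemma mqf_det (n : ℕ) (x : Fin n → ℝ) (hx : ∀ i, x i ∈ Icc (0:ℝ) 1) :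
    |(Matrix.vandermonde x).det| ≤ n.factorial * ∏ j : Fin n, (2 * (1 / 4 : ℝ) ^ (j : ℕ)) := by
  rw [Matrix.det_eval_matrixOfPolynomials_eq_det_vandermonde x (fun j => mqfP j)
    (fun j => mqfP_natDegree j) (fun j => mqfP_monic j), Matrix.det_apply]
  refine (Finset.abs_sum_le_sum_abs _ _).trans ?_
  have : ∀ σ ∈ (Finset.univ : Finset (Equiv.Perm (Fin n))),
      |Equiv.Perm.sign σ • ∏ i, (Matrix.of fun i j => (mqfP j).eval (x i)) (σ i) i| ≤
      ∏ j : Fin n, (2 * (1 / 4 : ℝ) ^ (j : ℕ)) := by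
    intro σ _
    have h1 : |Equiv.Perm.sign σ • ∏ i, (Matrix.of fun i j => (mqfP j).eval (x i)) (σ i) i| =
        ∏ i : Fin n, |(mqfP i).eval (x (σ i))| := by
      rw [← Finset.abs_prod]
      rcases Int.units_eq_one_or (Equiv.Perm.sign σ) with h | h
      · rw [h]; simp
      · rw [h]; simp
    rw [h1]
    exact Finset.prod_le_prod (fun _ _ => abs_nonneg _) fun i _ => mqfP_bound _ (hx _)
  refine (Finset.sum_le_card_nsmul _ _ _ this).trans ?_
  simp [Finset.card_univ, Fintype.card_perm]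

/-- pairs i < j -/
lemma mqf_log (n : ℕ) (x : Fin n → ℝ) (hx : ∀ i, x i ∈ Icc (0:ℝ) 1)
    (hne : ∀ i j, i ≠ j → x i ≠ x j) :
    ∑ i : Fin n, ∑ j ∈ Finset.Ioi i, Real.log |x j - x i| ≤
      Real.log n.factorial + n * Real.log 2 - (n * (n - 1) / 2) * Real.log 4 := by
  have h1 := mqf_det n x hx
  rw [Matrix.det_vandermonde] at h1
  have hz : ∀ i : Fin n, ∀ j ∈ Finset.Ioi i, x j - x i ≠ 0 := by
    intro i j hj
    have : i < j := by simpa using hj
    exact sub_ne_zero.2 (hne j i this.ne')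
  have hz' : ∀ i ∈ (Finset.univ : Finset (Fin n)), ∏ j ∈ Finset.Ioi i, (x j - x i) ≠ 0 :=
    fun i _ => Finset.prod_ne_zero_iff.2 (hz i)
  have h2 : Real.log |∏ i : Fin n, ∏ j ∈ Finset.Ioi i, (x j - x i)| =
      ∑ i : Fin n, ∑ j ∈ Finset.Ioi i, Real.log |x j - x i| := by
    rw [Real.log_abs, Real.log_prod hz']
    refine Finset.sum_congr rfl fun i _ => ?_
    rw [Real.log_prod (hz i)]
    exact Finset.sum_congr rfl fun j _ => (Real.log_abs _).symm
  rw [← h2]
  have h3 := Real.log_le_log (abs_pos.2 (Finset.prod_ne_zero_iff.2 hz')) h1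
  refine h3.trans (le_of_eq ?_)
  have hf : (n.factorial : ℝ) ≠ 0 := by exact_mod_cast n.factorial_ne_zero
  rw [Real.log_mul hf (Finset.prod_ne_zero_iff.2 fun j _ => by positivity),
    Real.log_prod (fun j _ => by positivity)]
  have h4 : ∀ j : Fin n, Real.log (2 * (1 / 4 : ℝ) ^ (j : ℕ)) = Real.log 2 - j * Real.log 4 := by
    intro j
    rw [Real.log_mul (by norm_num) (by positivity), Real.log_pow, one_div, Real.log_inv]
    ring
  rw [Finset.sum_congr rfl fun j _ => h4 j, Finset.sum_sub_distrib, ← Finset.sum_mul,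
    Fin.sum_univ_eq_sum_range (fun j => (j : ℝ))]
  have h5 : ∑ i ∈ Finset.range n, (i : ℝ) = n * (n - 1) / 2 := by
    clear * -
    induction n with
    | zero => simp
    | succ n ih => rw [Finset.sum_range_succ, ih]; push_cast; ring
  rw [h5]
  simp
  ring

lemma mqf_pair {ν : Measure ℝ} [IsProbabilityMeasure ν] (n : ℕ) {i j : Fin n} (hij : i ≠ j) :
    (Measure.pi (fun _ : Fin n => ν)).map (fun x => (x i, x j)) = ν.prod ν := by
  have h1 : ProbabilityTheory.iIndepFun (fun (i : Fin n) (x : Fin n → ℝ) => id (x i))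
      (Measure.pi (fun _ : Fin n => ν)) :=
    ProbabilityTheory.iIndepFun_pi (X := fun _ => id) (fun _ => aemeasurable_id)
  have h2 := h1.indepFun hij
  have h3 := (ProbabilityTheory.indepFun_iff_map_prod_eq_prod_map_map
    (measurable_pi_apply i).aemeasurable (measurable_pi_apply j).aemeasurable).1 h2
  rw [h3]
  have e : ∀ k : Fin n, (Measure.pi (fun _ : Fin n => ν)).map (fun x => x k) = ν :=
    fun k => (measurePreserving_eval (fun _ : Fin n => ν) k).map_eq
  rw [e i, e j]

lemma mqf_diag {ν : Measure ℝ} [IsProbabilityMeasure ν] [NullSingletonClass ν] :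
    (ν.prod ν) {p : ℝ × ℝ | p.1 = p.2} = 0 := by
  have hm : MeasurableSet {p : ℝ × ℝ | p.1 = p.2} :=
    measurableSet_eq_fun measurable_fst measurable_snd
  rw [Measure.measure_prod_null hm]
  refine Filter.Eventually.of_forall fun x => ?_
  have : Prod.mk x ⁻¹' {p : ℝ × ℝ | p.1 = p.2} = {x} := by
    ext y
    simp [eq_comm]
  simp only [this, measure_singleton, Pi.zero_apply]

lemma mqf_meas : Measurable (fun p : ℝ × ℝ => Real.log |p.1 - p.2|) :=
  Real.measurable_log.comp (measurable_norm.comp (measurable_fst.sub measurable_snd))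

lemma mqf_int {ν : Measure ℝ} (h : FinEnergy (Icc (0 : ℝ) 1) ν) (n : ℕ) :
    (n * (n - 1) / 2 : ℝ) * logI ν ≤
      Real.log n.factorial + n * Real.log 2 - (n * (n - 1) / 2) * Real.log 4 := by
  have hprob := h.prob
  have hna := h.noAtoms
  set μ := Measure.pi (fun _ : Fin n => ν) with hμ
  have hint : ∀ i j : Fin n, i ≠ j → Integrable (fun x : Fin n → ℝ => Real.log |x j - x i|) μ ∧
      ∫ x, Real.log |x j - x i| ∂μ = logI ν := by
    intro i j hij
    have hm : Measurable (fun x : Fin n → ℝ => (x j, x i)) :=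
      (measurable_pi_apply j).prodMk (measurable_pi_apply i)
    have hp := mqf_pair (ν := ν) n hij.symm
    constructor
    · have h1 := h.int
      rw [← hp] at h1
      exact h1.comp_measurable hm
    · unfold logI
      rw [← hp, integral_map hm.aemeasurable mqf_meas.aestronglyMeasurable]
  have hae1 : ∀ᵐ x ∂μ, ∀ i, x i ∈ Icc (0:ℝ) 1 := by
    rw [ae_all_iff]
    intro i
    have h1 : ∀ᵐ y ∂ν, y ∈ Icc (0:ℝ) 1 := h.supp
    exact (Measure.quasiMeasurePreserving_eval (fun _ : Fin n => ν) i).ae h1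
  have hae2 : ∀ᵐ x ∂μ, ∀ i j, i ≠ j → x i ≠ x j := by
    rw [ae_all_iff]
    intro i
    rw [ae_all_iff]
    intro j
    by_cases hij : i = j
    · exact Filter.Eventually.of_forall fun x hne => absurd hij hne
    · have hm : Measurable (fun x : Fin n → ℝ => (x i, x j)) :=
        (measurable_pi_apply i).prodMk (measurable_pi_apply j)
      have hmd : MeasurableSet {p : ℝ × ℝ | p.1 = p.2} :=
        measurableSet_eq_fun measurable_fst measurable_snd
      have h1 := mqf_diag (ν := ν)
      rw [← mqf_pair (ν := ν) n hij, Measure.map_apply hm hmd] at h1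
      have h2 : ∀ᵐ x ∂μ, ¬ (x i = x j) := by
        rw [ae_iff]
        convert h1 using 2
        ext x
        simp
      filter_upwards [h2] with x hx _
      exact hx
  have hsum : ∫ x, (∑ i : Fin n, ∑ j ∈ Finset.Ioi i, Real.log |x j - x i|) ∂μ =
      (n * (n - 1) / 2 : ℝ) * logI ν := by
    have hne : ∀ i : Fin n, ∀ j ∈ Finset.Ioi i, i ≠ j := by
      intro i j hj
      have : i < j := by simpa using hj
      exact this.ne
    rw [integral_finsetSum _ fun i _ => integrable_finsetSum _ fun j hj =>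
      (hint i j (hne i j hj)).1]
    have h1 : ∀ i : Fin n, ∫ x, (∑ j ∈ Finset.Ioi i, Real.log |x j - x i|) ∂μ =
        ((n : ℝ) - 1 - i) * logI ν := by
      intro i
      rw [integral_finsetSum _ fun j hj => (hint i j (hne i j hj)).1,
        Finset.sum_congr rfl fun j hj => (hint i j (hne i j hj)).2, Finset.sum_const,
        Fin.card_Ioi, nsmul_eq_mul]
      congr 1
      have : (i : ℕ) + 1 ≤ n := i.2
      rw [Nat.sub_sub, Nat.cast_sub (by omega)]
      push_cast
      ring
    rw [Finset.sum_congr rfl fun i _ => h1 i, ← Finset.sum_mul]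
    congr 1
    rw [Fin.sum_univ_eq_sum_range (fun i => (n : ℝ) - 1 - i), Finset.sum_sub_distrib]
    have h5 : ∀ m : ℕ, ∑ i ∈ Finset.range m, (i : ℝ) = m * (m - 1) / 2 := by
      intro m
      induction m with
      | zero => simp
      | succ m ih => rw [Finset.sum_range_succ, ih]; push_cast; ring
    rw [h5]
    simp
    ring
  have hle : ∫ x, (∑ i : Fin n, ∑ j ∈ Finset.Ioi i, Real.log |x j - x i|) ∂μ ≤
      ∫ _x : Fin n → ℝ, (Real.log n.factorial + n * Real.log 2 - (n * (n - 1) / 2) * Real.log 4) ∂μ := by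
    refine integral_mono_ae ?_ (integrable_const _) ?_
    · refine integrable_finsetSum _ fun i _ => integrable_finsetSum _ fun j hj =>
        (hint i j ?_).1
      have : i < j := by simpa using hj
      exact this.ne
    · filter_upwards [hae1, hae2] with x h1 h2
      exact mqf_log n x h1 h2
  rw [hsum] at hle
  simpa using hle

theorem energy_ge {ν : Measure ℝ} (h : FinEnergy (Icc (0 : ℝ) 1) ν) :
    logI ν ≤ -Real.log 4 := by
  by_contra hc
  push Not at hc
  set δ := logI ν + Real.log 4 with hδ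
  have hδ0 : 0 < δ := by rw [hδ]; linarith
  have h1 : ∀ n : ℕ, 1 ≤ n → ((n : ℝ) - 1) / 2 * δ ≤ Real.log n + Real.log 2 := by
    intro n hn
    have hn0 : (0:ℝ) < n := by exact_mod_cast hn
    have h2 := mqf_int h n
    have h3 : Real.log n.factorial ≤ n * Real.log n := by
      rw [← Real.log_pow]
      apply Real.log_le_log (by exact_mod_cast n.factorial_pos)
      exact_mod_cast n.factorial_le_pow
    have h4 : (n : ℝ) * (((n : ℝ) - 1) / 2 * δ) ≤ n * (Real.log n + Real.log 2) := by
      rw [hδ]; nlinarith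
    exact le_of_mul_le_mul_left h4 hn0
  have hlim : Filter.Tendsto (fun n : ℕ => Real.log n / n) Filter.atTop (nhds 0) := by
    have := (Real.isLittleO_log_id_atTop.tendsto_div_nhds_zero).comp tendsto_natCast_atTop_atTop
    exact this
  have hlim2 : Filter.Tendsto (fun n : ℕ => (Real.log 2 + δ / 2) / n) Filter.atTop (nhds 0) :=
    tendsto_const_div_atTop_nhds_zero_nat _
  have hs := hlim.add hlim2
  rw [add_zero] at hs
  have h5 := (hs.eventually (gt_mem_nhds (show (0:ℝ) < δ / 2 by linarith))).and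
    (Filter.eventually_ge_atTop 1)
  obtain ⟨n, h6, h7⟩ := h5.exists
  have hn0 : (0:ℝ) < n := by exact_mod_cast h7
  have h8 := h1 n h7
  rw [← add_div, div_lt_iff₀ hn0] at h6
  linarith

theorem capB_le : capB (Icc (0 : ℝ) 1) ≤ ((1/4 : ℝ) : EReal) := by
  unfold capB
  refine iSup₂_le fun K hK => ?_
  rw [EReal.coe_le_coe_iff]
  unfold capK
  refine csSup_le ⟨0, Set.mem_insert _ _⟩ ?_
  rintro t (rfl | ⟨ν, hν, rfl⟩)
  · norm_num
  · have h1 : FinEnergy (Icc (0:ℝ) 1) ν :=
      ⟨hν.prob, measure_mono_null (compl_subset_compl.2 hK.1) hν.supp, hν.noAtoms, hν.int⟩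
    have h2 := Real.exp_le_exp.2 (energy_ge h1)
    rw [Real.exp_neg, Real.exp_log (by norm_num)] at h2
    linarith

end Pool.Agent.R263.MQ
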