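import Pool.Agent.R263.MQ.E
import Pool.Agent.R263.MQ.F

/-! The minimal carrier capacity. -/

namespace Pool.Agent.R263.MQ

open MeasureTheory Set Real

theorem log_abs_nonpos {x y : ℝ} (hx : x ∈ Icc (0 : ℝ) 1) (hy : y ∈ Icc (0 : ℝ) 1) :
    Real.log |x - y| ≤ 0 :=
  Real.log_nonpos (abs_nonneg _) (abs_le.2 ⟨by linarith [hx.1, hy.2], by linarith [hx.2, hy.1]⟩)

theorem meas_logdiff : Measurable fun p : ℝ × ℝ => Real.log |p.1 - p.2| :=
  Real.measurable_log.comp (measurable_fst.sub measurable_snd).abs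

/-- the energy of a measure with bounded potential is finite -/
theorem energy_int {ν : Measure ℝ} (hp : IsProbabilityMeasure ν) (hs : ν (Icc (0 : ℝ) 1)ᶜ = 0)
    {c : ℝ} (hpot : ∀ z ∈ Icc (0 : ℝ) 1, Integrable (fun x => Real.log |x - z|) ν ∧
      -c ≤ ∫ x, Real.log |x - z| ∂ν) :
    Integrable (fun p : ℝ × ℝ => Real.log |p.1 - p.2|) (ν.prod ν) := by
  have hmem := ae_mem hs
  rw [integrable_prod_iff' meas_logdiff.aestronglyMeasurable]
  constructor
  · filter_upwards [hmem] with y hy
    exact (hpot y hy).1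
  · have hb : ∀ᵐ y ∂ν, ‖∫ x, ‖Real.log |x - y|‖ ∂ν‖ ≤ c := by
      filter_upwards [hmem] with y hy
      have e : ∫ x, ‖Real.log |x - y|‖ ∂ν = -∫ x, Real.log |x - y| ∂ν := by
        rw [← integral_neg]
        apply integral_congr_ae
        filter_upwards [hmem] with x hx
        rw [Real.norm_of_nonpos (log_abs_nonpos hx hy)]
      rw [Real.norm_of_nonneg (integral_nonneg fun _ => norm_nonneg _), e]
      linarith [(hpot y hy).2]
    refine Integrable.of_bound ?_ c hb
    exact (StronglyMeasurable.integral_prod_left' (f := fun p : ℝ × ℝ => ‖Real.log |p.1 - p.2|‖)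
      meas_logdiff.norm.stronglyMeasurable).aestronglyMeasurable

/-- restricting a measure with bounded potential to a compact set of large measure -/
theorem capK_ge {ν : Measure ℝ} (hp : IsProbabilityMeasure ν) (hnull : NullSingletonClass ν)
    (hs : ν (Icc (0 : ℝ) 1)ᶜ = 0) {c : ℝ} (hc : 0 ≤ c)
    (hpot : ∀ z ∈ Icc (0 : ℝ) 1, Integrable (fun x => Real.log |x - z|) ν ∧
      -c ≤ ∫ x, Real.log |x - z| ∂ν) {K : Set ℝ} (hK : IsCompact K) (hK01 : K ⊆ Icc 0 1)
    {m : ℝ} (hm : 0 < m) (hKm : m ≤ ν.real K) : Real.exp (-c / m) ≤ capK K := by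
  have hKmeas : MeasurableSet K := hK.measurableSet
  have hKpos : 0 < ν.real K := hm.trans_le hKm
  have hK0 : ν K ≠ 0 := fun h => by simp [Measure.real, h] at hKpos
  have hint := energy_int hp hs hpot
  set ρ : Measure ℝ := (ν K)⁻¹ • ν.restrict K with hρ
  have hρp : IsProbabilityMeasure ρ := by
    constructor
    rw [hρ, Measure.smul_apply, Measure.restrict_apply MeasurableSet.univ, univ_inter, smul_eq_mul,
      ENNReal.inv_mul_cancel hK0 (measure_ne_top _ _)]
  have hρn : NullSingletonClass ρ := by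
    constructor
    intro x
    rw [hρ, Measure.smul_apply]
    have : ν.restrict K {x} = 0 := measure_mono_null (le_refl _) (by
      refine le_antisymm ((Measure.restrict_apply_le K {x}).trans ?_) bot_le
      simp)
    rw [this]; simp
  have hρK : ρ Kᶜ = 0 := by
    rw [hρ, Measure.smul_apply, Measure.restrict_apply hKmeas.compl]
    simp
  have hprod : ρ.prod ρ = ((ν K)⁻¹ * (ν K)⁻¹) • (ν.prod ν).restrict (K ×ˢ K) := by
    rw [hρ, Measure.prod_smul_left, Measure.prod_smul_right, smul_smul, Measure.prod_restrict]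
  have hinv : (ν K)⁻¹ * (ν K)⁻¹ ≠ ⊤ := ENNReal.mul_ne_top (ENNReal.inv_ne_top.2 hK0) (ENNReal.inv_ne_top.2 hK0)
  have hρint : Integrable (fun p : ℝ × ℝ => Real.log |p.1 - p.2|) (ρ.prod ρ) := by
    rw [hprod]
    exact hint.restrict.smul_measure hinv
  have hF : FinEnergy K ρ := ⟨hρp, hρK, hρn, hρint⟩
  -- lower bound for the energy integral
  have hI : -c / ν.real K ≤ logI ρ := by
    unfold logI
    rw [hprod, integral_smul_measure]
    have e1 : ((ν K)⁻¹ * (ν K)⁻¹).toReal = (ν.real K)⁻¹ * (ν.real K)⁻¹ := by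
      rw [ENNReal.toReal_mul, ENNReal.toReal_inv]; rfl
    rw [e1, smul_eq_mul]
    have e2 : ∫ p in (univ ×ˢ K), Real.log |p.1 - p.2| ∂(ν.prod ν) ≤
        ∫ p in (K ×ˢ K), Real.log |p.1 - p.2| ∂(ν.prod ν) := by
      have hsub : K ×ˢ K ⊆ (univ : Set ℝ) ×ˢ K := prod_mono (subset_univ _) le_rfl
      have hneg : ∀ᵐ p ∂(ν.prod ν), Real.log |p.1 - p.2| ≤ 0 := by
        have hmem := ae_mem hs
        have h1 : ∀ᵐ p ∂(ν.prod ν), p.1 ∈ Icc (0 : ℝ) 1 :=
          (Measure.quasiMeasurePreserving_fst (μ := ν) (ν := ν)).ae hmem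
        have h2 : ∀ᵐ p ∂(ν.prod ν), p.2 ∈ Icc (0 : ℝ) 1 :=
          (Measure.quasiMeasurePreserving_snd (μ := ν) (ν := ν)).ae hmem
        filter_upwards [h1, h2] with p h1 h2
        exact log_abs_nonpos h1 h2
      have := setIntegral_mono_set (μ := ν.prod ν) (f := fun p : ℝ × ℝ => -Real.log |p.1 - p.2|)
        (s := K ×ˢ K) (t := univ ×ˢ K) hint.neg.integrableOn
        (by
          refine ae_restrict_of_ae ?_
          filter_upwards [hneg] with p hp
          simpa using hp) (Filter.Eventually.of_forall hsub)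
      rw [integral_neg, integral_neg] at this
      linarith
    have e3 : -c * ν.real K ≤ ∫ p in (univ ×ˢ K), Real.log |p.1 - p.2| ∂(ν.prod ν) := by
      rw [← Measure.prod_restrict, Measure.restrict_univ]
      have hint2 : Integrable (fun p : ℝ × ℝ => Real.log |p.1 - p.2|) (ν.prod (ν.restrict K)) := by
        have := hint.restrict (s := univ ×ˢ K)
        rwa [← Measure.prod_restrict, Measure.restrict_univ] at this
      rw [integral_prod_symm _ hint2]
      have hle : ∫ _y in K, -c ∂ν ≤ ∫ y in K, ∫ x, Real.log |x - y| ∂ν ∂ν := by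
        refine setIntegral_mono_on (integrable_const _).integrableOn ?_ hKmeas ?_
        · exact hint2.integral_prod_right
        · intro y hy
          exact (hpot y (hK01 hy)).2
      refine le_trans (le_of_eq ?_) hle
      simp [mul_comm]
    have hKinv : 0 < (ν.real K)⁻¹ := inv_pos.2 hKpos
    have e4 : -c * ν.real K ≤ ∫ p in (K ×ˢ K), Real.log |p.1 - p.2| ∂(ν.prod ν) := e3.trans e2
    calc -c / ν.real K = (ν.real K)⁻¹ * (ν.real K)⁻¹ * (-c * ν.real K) := by
          field_simp
      _ ≤ _ := mul_le_mul_of_nonneg_left e4 (by positivity)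
  have hI' : -c / m ≤ logI ρ := by
    refine le_trans ?_ hI
    rw [neg_div, neg_div, neg_le_neg_iff]
    exact div_le_div_of_nonneg_left hc hm hKm
  refine (Real.exp_le_exp.2 hI').trans ?_
  unfold capK
  apply le_csSup
  · refine ⟨1, ?_⟩
    rintro t (rfl | ⟨ν', hν', rfl⟩)
    · norm_num
    · have hF' : FinEnergy (Icc (0 : ℝ) 1) ν' :=
        ⟨hν'.prob, measure_mono_null (compl_subset_compl.2 hK01) hν'.supp, hν'.noAtoms, hν'.int⟩
      have := energy_ge hF'
      have h4 : 0 ≤ Real.log 4 := Real.log_nonneg (by norm_num)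
      calc Real.exp (logI ν') ≤ Real.exp 0 := Real.exp_le_exp.2 (by linarith)
        _ = 1 := Real.exp_zero
  · exact mem_insert_of_mem _ ⟨ρ, hF, rfl⟩

theorem carrier_ge {μ : Measure ℝ} (hnull : NullSingletonClass μ) (hlow : LowPot μ)
    {B : Set ℝ} (hB : MeasurableSet B) (hμB : μ Bᶜ = 0) : ((1 / 4 : ℝ) : EReal) ≤ capB B := by
  have h4 : 0 < Real.log 4 := Real.log_pos (by norm_num)
  have key : ∀ δ : ℝ, 0 < δ → δ < 1 → ((Real.exp (-(Real.log 4 + δ) / (1 - δ)) : ℝ) : EReal) ≤ capB B := by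
    intro δ hδ hδ1
    obtain ⟨ν, C, hp, hs, hle, hpot⟩ := hlow δ hδ
    have hνnull : NullSingletonClass ν := by
      constructor
      intro x
      have := hle {x}
      rw [Measure.smul_apply] at this
      simpa using this
    have hνB : ν Bᶜ = 0 := by
      have := hle Bᶜ
      rw [Measure.smul_apply, hμB] at this
      simpa using this
    have hBI : ν (B ∩ Icc 0 1) = 1 := by
      have h1 : ν (B ∩ Icc 0 1)ᶜ = 0 := by
        rw [compl_inter]
        exact measure_union_null hνB hs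
      rw [prob_compl_eq_zero_iff (hB.inter measurableSet_Icc)] at h1
      exact h1
    obtain ⟨K, hKsub, hK, hKlt⟩ := (hB.inter measurableSet_Icc).exists_lt_isCompact (μ := ν)
      (r := ENNReal.ofReal (1 - δ)) (by
        rw [hBI, ← ENNReal.ofReal_one]
        exact (ENNReal.ofReal_lt_ofReal_iff (by norm_num)).2 (by linarith))
    have hKr : 1 - δ ≤ ν.real K := by
      have := ENNReal.toReal_mono (measure_ne_top _ _) hKlt.le
      rwa [ENNReal.toReal_ofReal (by linarith)] at this
    have := capK_ge hp hνnull hs (c := Real.log 4 + δ) (by linarith)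
      (fun z hz => ⟨(hpot z hz).1, by linarith [(hpot z hz).2]⟩) hK
      (hKsub.trans inter_subset_right) (by linarith : 0 < 1 - δ) hKr
    have h2 : ((Real.exp (-(Real.log 4 + δ) / (1 - δ)) : ℝ) : EReal) ≤ ((capK K : ℝ) : EReal) := by
      exact_mod_cast this
    refine h2.trans ?_
    unfold capB
    exact le_iSup₂_of_le K ⟨hKsub.trans inter_subset_left, hK⟩ le_rfl
  have hlim : Filter.Tendsto (fun δ : ℝ => ((Real.exp (-(Real.log 4 + δ) / (1 - δ)) : ℝ) : EReal))
      (nhdsWithin 0 (Ioi 0)) (nhds ((1 / 4 : ℝ) : EReal)) := by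
    refine (continuous_coe_real_ereal.tendsto _).comp ?_
    have hc : ContinuousAt (fun δ : ℝ => Real.exp (-(Real.log 4 + δ) / (1 - δ))) 0 := by
      apply Real.continuous_exp.continuousAt.comp
      apply ContinuousAt.div (by fun_prop) (by fun_prop)
      norm_num
    have h0 : Real.exp (-(Real.log 4 + 0) / (1 - 0)) = 1 / 4 := by
      rw [add_zero, sub_zero, div_one, Real.exp_neg, Real.exp_log (by norm_num)]
      norm_num
    have := hc.tendsto
    rw [h0] at this
    exact this.mono_left nhdsWithin_le_nhds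
  refine le_of_tendsto hlim ?_
  filter_upwards [Ioo_mem_nhdsGT (zero_lt_one (α := ℝ))] with δ hδ
  exact key δ hδ.1 hδ.2

theorem minCarrier_eq {μ : Measure ℝ} (hsup : μ (Icc (0 : ℝ) 1)ᶜ = 0) (hnull : NullSingletonClass μ)
    (hlow : LowPot μ) : minCarrierCap μ = ((1 / 4 : ℝ) : EReal) := by
  apply le_antisymm
  · exact (iInf₂_le (Icc (0 : ℝ) 1) ⟨measurableSet_Icc, hsup⟩).trans capB_le
  · exact le_iInf₂ fun B hB => carrier_ge hnull hlow hB.1 hB.2

end Pool.Agent.R263.MQ
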