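import Mathlib
import Pool.Agent.R263.MQ.Defs

/-!
# n-th root asymptotics of the recurrence coefficients
-/

namespace Pool.Agent.R263.MQ

open MeasureTheory Set Real Polynomial Filter Topology

section basic

variable {μ : Measure ℝ} (hs : μ (Icc (0 : ℝ) 1)ᶜ = 0)

include hs in
theorem H_restrict : μ.restrict (Icc (0 : ℝ) 1) = μ :=
  Measure.restrict_eq_self_of_ae_mem (measure_eq_zero_iff_ae_notMem.1 hs |>.mono fun x hx => by
    simpa using hx)

include hs in
theorem H_int [IsFiniteMeasure μ] (q : ℝ[X]) : Integrable (fun x => q.eval x) μ := by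
  rw [← H_restrict hs]
  exact q.continuous.continuousOn.integrableOn_compact isCompact_Icc

include hs in
theorem H_int_mul [IsFiniteMeasure μ] (q r : ℝ[X]) :
    Integrable (fun x => q.eval x * r.eval x) μ := by
  have := H_int hs (q * r)
  simpa only [eval_mul] using this

variable {p : ℕ → ℝ[X]} {a b : ℕ → ℝ} (h : OrthoSystem μ p a b)

include h in
theorem H_lead (n : ℕ) : (p n).leadingCoeff = a (n + 1) * (p (n + 1)).leadingCoeff := by
  have h1 := congrArg (fun q => q.coeff (n + 1)) (h.recur n)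
  have h2 : (p n).coeff (n + 1) = 0 := coeff_eq_zero_of_natDegree_lt (by rw [h.deg]; omega)
  have h3 : (if n = 0 then (0 : ℝ[X]) else p (n - 1)).coeff (n + 1) = 0 := by
    split_ifs with h0
    · simp
    · exact coeff_eq_zero_of_natDegree_lt (by rw [h.deg]; omega)
  simp only [coeff_X_mul, coeff_add, coeff_C_mul, h2, h3, mul_zero, add_zero] at h1
  rw [leadingCoeff, leadingCoeff, h.deg, h.deg]
  exact h1

include h in
theorem H_zero (hp : IsProbabilityMeasure μ) : (p 0).leadingCoeff = 1 := by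
  have h1 := h.ortho 0 0
  have h2 : p 0 = C ((p 0).leadingCoeff) := by
    rw [leadingCoeff, h.deg]
    exact eq_C_of_natDegree_eq_zero (h.deg 0)
  rw [if_pos rfl, h2] at h1
  simp only [eval_C, integral_const, probReal_univ, smul_eq_mul, one_mul, leadingCoeff_C] at h1
  have h3 := h.lead 0
  nlinarith

include h in
theorem H_prod (hp : IsProbabilityMeasure μ) (n : ℕ) :
    ∏ i ∈ Finset.Icc 1 n, a i = ((p n).leadingCoeff)⁻¹ := by
  induction n with
  | zero => simp [H_zero h hp]
  | succ n ih =>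
    rw [Finset.prod_Icc_succ_top (by omega), ih, H_lead h n]
    have h1 := h.lead (n + 1)
    have h2 := h.lead n
    rw [H_lead h n] at h2
    have h3 : a (n + 1) ≠ 0 := fun h0 => by rw [h0, zero_mul] at h2; exact lt_irrefl _ h2
    field_simp

include hs h in
theorem H_orth [IsFiniteMeasure μ] (n : ℕ) : ∀ m : ℕ, m ≤ n → ∀ q : ℝ[X], q.degree < (m : ℕ) →
    ∫ x, q.eval x * (p n).eval x ∂μ = 0 := by
  intro m
  induction m with
  | zero =>
    intro _ q hq
    have : q = 0 := by
      rw [← degree_eq_bot]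
      exact Nat.WithBot.lt_zero_iff.1 (by exact_mod_cast hq)
    simp [this]
  | succ m ih =>
    intro hm q hq
    set c := q.coeff m / (p m).leadingCoeff with hc
    have h1 : (q - C c * p m).degree < (m : ℕ) := by
      rw [degree_lt_iff_coeff_zero]
      intro k hk
      rcases eq_or_lt_of_le hk with rfl | hk
      · rw [coeff_sub, coeff_C_mul, hc]
        have : (p m).leadingCoeff = (p m).coeff m := by rw [leadingCoeff, h.deg]
        rw [← this, div_mul_cancel₀ _ (h.lead m).ne', sub_self]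
      · rw [coeff_sub, coeff_C_mul, coeff_eq_zero_of_natDegree_lt (p := p m) (by rw [h.deg]; exact hk),
          mul_zero, sub_zero]
        exact coeff_eq_zero_of_degree_lt (hq.trans_le (by exact_mod_cast hk))
    have h2 := ih (by omega) _ h1
    have h3 := h.ortho m n
    rw [if_neg (by omega)] at h3
    have h4 : ∀ x, q.eval x * (p n).eval x = (q - C c * p m).eval x * (p n).eval x +
        c * ((p m).eval x * (p n).eval x) := by
      intro x
      simp only [eval_sub, eval_mul, eval_C]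
      ring
    simp only [h4]
    rw [integral_add (H_int_mul hs _ _) ((H_int_mul hs _ _).const_mul c), h2, integral_const_mul, h3]
    simp

include hs h in
/-- extremality of the orthogonal polynomials -/
theorem H_ext [IsFiniteMeasure μ] (n : ℕ) (Q : ℝ[X]) (hQ : Q.Monic) (hn : Q.natDegree = n) :
    ((p n).leadingCoeff)⁻¹ ^ 2 ≤ ∫ x, Q.eval x ^ 2 ∂μ := by
  set g := (p n).leadingCoeff with hg
  have hg0 : 0 < g := h.lead n
  set R := Q - C g⁻¹ * p n with hR
  have hRd : R.degree < (n : ℕ) := by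
    rw [degree_lt_iff_coeff_zero]
    intro k hk
    rcases eq_or_lt_of_le hk with rfl | hk
    · have : g = (p n).coeff n := by rw [hg, leadingCoeff, h.deg]
      have h2 : Q.coeff n = 1 := by rw [← hn]; exact hQ
      rw [hR, coeff_sub, coeff_C_mul, ← this, inv_mul_cancel₀ hg0.ne', h2, sub_self]
    · rw [hR, coeff_sub, coeff_C_mul, coeff_eq_zero_of_natDegree_lt (p := p n) (by rw [h.deg]; exact hk),
        coeff_eq_zero_of_natDegree_lt (p := Q) (by rw [hn]; exact hk)]
      simp
  have h1 := H_orth hs h n n le_rfl R hRd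
  have h2 := h.ortho n n
  rw [if_pos rfl] at h2
  have h4 : ∀ x, Q.eval x ^ 2 = g⁻¹ ^ 2 * ((p n).eval x * (p n).eval x) +
      (2 * g⁻¹) * (R.eval x * (p n).eval x) + R.eval x * R.eval x := by
    intro x
    simp only [hR, eval_sub, eval_mul, eval_C]
    ring
  simp only [h4]
  have i1 : Integrable (fun x => g⁻¹ ^ 2 * ((p n).eval x * (p n).eval x)) μ :=
    (H_int_mul hs _ _).const_mul _
  have i2 : Integrable (fun x => (2 * g⁻¹) * (R.eval x * (p n).eval x)) μ :=
    (H_int_mul hs _ _).const_mul _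
  have i3 : Integrable (fun x => g⁻¹ ^ 2 * ((p n).eval x * (p n).eval x) +
      (2 * g⁻¹) * (R.eval x * (p n).eval x)) μ := i1.add i2
  rw [integral_add i3 (H_int_mul hs _ _), integral_add i1 i2, integral_const_mul,
      integral_const_mul, h1, h2, mul_one, mul_zero, add_zero]
  exact le_add_of_nonneg_right (integral_nonneg fun x => mul_self_nonneg _)

end basic

/-- the monic Chebyshev polynomial of `[0,1]` -/
noncomputable def H_cheb (n : ℕ) : ℝ[X] :=
  C (2 * (1 / 4 : ℝ) ^ n) * (Chebyshev.T ℝ n).comp (C 2 * X - C 1)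

theorem H_cheb_prop (n : ℕ) (hn : 1 ≤ n) : (H_cheb n).Monic ∧ (H_cheb n).natDegree = n ∧
    ∀ x ∈ Icc (0 : ℝ) 1, |(H_cheb n).eval x| ≤ 2 * (1 / 4 : ℝ) ^ n := by
  have h1 : (C (2 : ℝ) * X - C 1).natDegree = 1 := by
    rw [sub_eq_add_neg, ← C_neg]
    exact natDegree_linear (by norm_num)
  have h2 : (C (2 : ℝ) * X - C 1).leadingCoeff = 2 := by
    rw [sub_eq_add_neg, ← C_neg]
    exact leadingCoeff_linear (by norm_num)
  have hc : (2 * (1 / 4 : ℝ) ^ n) ≠ 0 := by positivity
  refine ⟨?_, ?_, ?_⟩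
  · rw [Monic, H_cheb, leadingCoeff_mul, leadingCoeff_C, leadingCoeff_comp (by rw [h1]; norm_num),
      h2, Chebyshev.leadingCoeff_T, Chebyshev.natDegree_T, Int.natAbs_natCast]
    obtain ⟨m, rfl⟩ : ∃ m, n = m + 1 := ⟨n - 1, by omega⟩
    rw [Nat.add_sub_cancel, mul_assoc, ← mul_assoc, ← mul_assoc]
    have : (2 : ℝ) * (1 / 4) ^ (m + 1) * 2 ^ m * 2 ^ (m + 1) =
        (1 / 4 * 2 * 2) ^ (m + 1) := by
      rw [mul_pow, mul_pow, pow_succ 2 m]; ring
    rw [this]; norm_num
  · rw [H_cheb, natDegree_C_mul hc, natDegree_comp, h1, Chebyshev.natDegree_T, Int.natAbs_natCast,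
      mul_one]
  · intro x hx
    rw [H_cheb, eval_mul, eval_C, eval_comp, abs_mul, abs_of_pos (by positivity)]
    refine mul_le_of_le_one_right (by positivity) ?_
    refine Chebyshev.abs_eval_T_real_le_one n ?_
    simp only [eval_sub, eval_mul, eval_C, eval_X]
    rw [abs_le]
    constructor <;> linarith [hx.1, hx.2]

/-- upper bound -/
theorem H_upper {μ : Measure ℝ} (hp : IsProbabilityMeasure μ) (hs : μ (Icc (0 : ℝ) 1)ᶜ = 0)
    {p : ℕ → ℝ[X]} {a b : ℕ → ℝ} (h : OrthoSystem μ p a b) (n : ℕ) (hn : 1 ≤ n) :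
    ((p n).leadingCoeff)⁻¹ ≤ 2 * (1 / 4 : ℝ) ^ n := by
  obtain ⟨h1, h2, h3⟩ := H_cheb_prop n hn
  have h4 := H_ext hs h n (H_cheb n) h1 h2
  have h5 : ∫ x, (H_cheb n).eval x ^ 2 ∂μ ≤ (2 * (1 / 4 : ℝ) ^ n) ^ 2 := by
    have h6 : ∫ x, (H_cheb n).eval x ^ 2 ∂μ ≤ ∫ _x, (2 * (1 / 4 : ℝ) ^ n) ^ 2 ∂μ := by
      refine integral_mono_ae ?_ (integrable_const _) ?_
      · have := H_int_mul hs (H_cheb n) (H_cheb n)
        simpa only [pow_two] using this
      · have : ∀ᵐ x ∂μ, x ∈ Icc (0 : ℝ) 1 :=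
          (measure_eq_zero_iff_ae_notMem.1 hs).mono fun x hx => by simpa using hx
        filter_upwards [this] with x hx
        exact sq_le_sq' (by linarith [abs_le.1 (h3 x hx)]) (abs_le.1 (h3 x hx)).2
    simpa using h6
  exact le_of_sq_le_sq (h4.trans h5) (by positivity)

/-- real parts of the roots, clamped to `[0,1]` -/
theorem H_roots (P : ℝ[X]) (n : ℕ) (hP : P.Monic) (hn : P.natDegree = n) :
    ∃ c : Fin n → ℝ, (∀ i, c i ∈ Icc (0 : ℝ) 1) ∧
      ∀ x ∈ Icc (0 : ℝ) 1, ∏ i, |x - c i| ≤ |P.eval x| := by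
  have hm : (P.map (algebraMap ℝ ℂ)).Monic := hP.map _
  have hsp : (P.map (algebraMap ℝ ℂ)).Splits := IsAlgClosed.splits _
  have hcard : Multiset.card (P.map (algebraMap ℝ ℂ)).roots = n := by
    rw [← hsp.natDegree_eq_card_roots, natDegree_map, hn]
  obtain ⟨l, hl⟩ := Quot.exists_rep (P.map (algebraMap ℝ ℂ)).roots
  have hl' : (l : Multiset ℂ) = (P.map (algebraMap ℝ ℂ)).roots := hl
  have hlen : l.length = n := by
    rw [← hcard, ← hl', Multiset.coe_card]
  subst hlen
  have hev : ∀ x : ℝ, |P.eval x| = ∏ i : Fin l.length, ‖(x : ℂ) - l.get i‖ := by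
    intro x
    have h1 := hsp.eval_eq_prod_roots_of_monic hm (x : ℂ)
    rw [← hl', Multiset.map_coe, Multiset.prod_coe] at h1
    have h2 : (P.map (algebraMap ℝ ℂ)).eval (x : ℂ) = ((P.eval x : ℝ) : ℂ) := by
      rw [eval_map_algebraMap]
      exact aeval_algebraMap_apply ℂ x P
    have h3 : (l.map fun z => (x : ℂ) - z).prod = ∏ i : Fin l.length, ((x : ℂ) - l.get i) := by
      rw [← List.prod_ofFn]
      congr 1
      conv_lhs => rw [← List.ofFn_get l]
      rw [List.map_ofFn]
      rfl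
    rw [h2, h3] at h1
    rw [← norm_prod, ← h1, Complex.norm_real, Real.norm_eq_abs]
  refine ⟨fun i => max 0 (min 1 (l.get i).re), fun i => ⟨le_max_left _ _, ?_⟩, fun x hx => ?_⟩
  · exact max_le zero_le_one (min_le_left _ _)
  · rw [hev x]
    refine Finset.prod_le_prod (fun i _ => abs_nonneg _) fun i _ => ?_
    have h1 : |x - (l.get i).re| ≤ ‖(x : ℂ) - l.get i‖ := by
      have := Complex.abs_re_le_norm ((x : ℂ) - l.get i)
      simpa using this
    refine le_trans ?_ h1
    show |x - max 0 (min 1 (l.get i).re)| ≤ |x - (l.get i).re|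
    obtain ⟨hx0, hx1⟩ := hx
    rcases le_total 1 (l.get i).re with h2 | h2
    · rw [min_eq_left h2, max_eq_right zero_le_one, abs_of_nonpos (by linarith),
        abs_of_nonpos (by linarith)]
      linarith
    · rw [min_eq_right h2]
      rcases le_total 0 (l.get i).re with h3 | h3
      · rw [max_eq_right h3]
      · rw [max_eq_left h3, abs_of_nonneg (by linarith), abs_of_nonneg (by linarith)]
        linarith

/-- lower bound -/
theorem H_lower {μ : Measure ℝ} (hp : IsProbabilityMeasure μ) [NullSingletonClass μ]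
    (hs : μ (Icc (0 : ℝ) 1)ᶜ = 0) (hlow : LowPot μ) {p : ℕ → ℝ[X]} {a b : ℕ → ℝ}
    (h : OrthoSystem μ p a b) {ε : ℝ} (hε : 0 < ε) :
    ∃ K : ℝ, 0 < K ∧ ∀ n : ℕ, K * (Real.exp (-ε) / 4) ^ n ≤ ((p n).leadingCoeff)⁻¹ := by
  obtain ⟨ν, C, hν, hνs, hνμ, hpot⟩ := hlow ε hε
  have hC : 0 < C := by
    by_contra hC
    rw [not_lt] at hC
    rw [ENNReal.ofReal_of_nonpos hC, zero_smul] at hνμ
    have h1 := hνμ Set.univ
    rw [hν.measure_univ] at h1
    simp at h1
  have hna : NullSingletonClass ν := by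
    refine ⟨fun x => ?_⟩
    have h1 := hνμ {x}
    have h2 : (ENNReal.ofReal C • μ) {x} = 0 := by
      rw [Measure.smul_apply, smul_eq_mul, measure_singleton, mul_zero]
    rw [h2] at h1
    exact le_antisymm h1 bot_le
  refine ⟨(√C)⁻¹, inv_pos.2 (Real.sqrt_pos.2 hC), fun n => ?_⟩
  set g := (p n).leadingCoeff with hg
  have hg0 : 0 < g := h.lead n
  set P : ℝ[X] := Polynomial.C g⁻¹ * p n with hP
  have hPm : P.Monic := by
    rw [Monic, hP, leadingCoeff_mul, leadingCoeff_C, ← hg, inv_mul_cancel₀ hg0.ne']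
  have hPn : P.natDegree = n := by
    rw [hP, natDegree_C_mul (inv_ne_zero hg0.ne'), h.deg]
  obtain ⟨c, hc, hcP⟩ := H_roots P n hPm hPn
  have hsq : ∫ x, P.eval x ^ 2 ∂μ = g⁻¹ ^ 2 := by
    have h1 : ∀ x, P.eval x ^ 2 = g⁻¹ ^ 2 * ((p n).eval x * (p n).eval x) := by
      intro x
      rw [hP, eval_mul, eval_C]
      ring
    simp only [h1]
    rw [integral_const_mul, h.ortho n n, if_pos rfl, mul_one]
  have hint : Integrable (fun x => P.eval x ^ 2) μ := by
    have := H_int_mul hs P P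
    simpa only [pow_two] using this
  have hintν : Integrable (fun x => P.eval x ^ 2) ν := by
    have := H_int_mul hνs P P
    simpa only [pow_two] using this
  have hle : ∫ x, P.eval x ^ 2 ∂ν ≤ C * g⁻¹ ^ 2 := by
    have h1 := integral_mono_measure hνμ (Filter.Eventually.of_forall fun x => sq_nonneg (P.eval x))
      (hint.smul_measure ENNReal.ofReal_ne_top)
    rw [integral_smul_measure, hsq, ENNReal.toReal_ofReal hC.le, smul_eq_mul] at h1
    exact h1
  set L : ℝ := 2 * n * (-Real.log 4 - ε) with hL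
  have hlog : L ≤ (∫ x, P.eval x ^ 2 ∂ν) / Real.exp L + L - 1 := by
    have h1 : L ≤ ∫ x, ∑ i, 2 * Real.log |x - c i| ∂ν := by
      rw [integral_finsetSum _ fun i _ => (hpot (c i) (hc i)).1.const_mul 2]
      have : L = ∑ _i : Fin n, 2 * (-Real.log 4 - ε) := by
        rw [Finset.sum_const, Finset.card_univ, Fintype.card_fin, nsmul_eq_mul, hL]
        ring
      rw [this]
      refine Finset.sum_le_sum fun i _ => ?_
      rw [integral_const_mul]
      exact mul_le_mul_of_nonneg_left (hpot (c i) (hc i)).2 (by norm_num)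
    have h2 : ∫ x, ∑ i, 2 * Real.log |x - c i| ∂ν ≤
        ∫ x, (P.eval x ^ 2 / Real.exp L + (L - 1)) ∂ν := by
      refine integral_mono_ae (integrable_finsetSum _ fun i _ => (hpot (c i) (hc i)).1.const_mul 2)
        ((hintν.div_const _).add (integrable_const _)) ?_
      have e1 : ∀ᵐ x ∂ν, x ∈ Icc (0 : ℝ) 1 :=
        (measure_eq_zero_iff_ae_notMem.1 hνs).mono fun x hx => by simpa using hx
      have e2 : ∀ᵐ x ∂ν, ∀ i, x ≠ c i := by
        rw [ae_all_iff]
        intro i
        have : ν {c i} = 0 := measure_singleton _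
        exact (measure_eq_zero_iff_ae_notMem.1 this).mono fun x hx => by simpa using hx
      filter_upwards [e1, e2] with x hx1 hx2
      have hpos : 0 < ∏ i, |x - c i| := Finset.prod_pos fun i _ => abs_pos.2 (sub_ne_zero.2 (hx2 i))
      have hP0 : 0 < P.eval x ^ 2 := by
        rw [← sq_abs]
        exact pow_pos (hpos.trans_le (hcP x hx1)) 2
      have h3 : ∑ i, 2 * Real.log |x - c i| ≤ Real.log (P.eval x ^ 2) := by
        rw [← Finset.mul_sum, ← Real.log_prod (fun i _ => (abs_pos.2 (sub_ne_zero.2 (hx2 i))).ne'),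
          ← sq_abs, Real.log_pow]
        push_cast
        exact mul_le_mul_of_nonneg_left (Real.log_le_log hpos (hcP x hx1)) (by norm_num)
      refine h3.trans ?_
      have h4 := Real.log_le_sub_one_of_pos (div_pos hP0 (Real.exp_pos L))
      rw [Real.log_div hP0.ne' (Real.exp_pos L).ne', Real.log_exp] at h4
      linarith
    rw [integral_add (hintν.div_const _) (integrable_const _), integral_div, integral_const,
      probReal_univ, one_smul] at h2
    linarith
  have hexp : Real.exp L ≤ ∫ x, P.eval x ^ 2 ∂ν := by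
    have h1 : 1 ≤ (∫ x, P.eval x ^ 2 ∂ν) / Real.exp L := by linarith
    rwa [one_le_div (Real.exp_pos L)] at h1
  have hLe : Real.exp L = ((Real.exp (-ε) / 4) ^ n) ^ 2 := by
    have h1 : Real.exp (-ε) / 4 = Real.exp (-Real.log 4 - ε) := by
      rw [sub_eq_add_neg, Real.exp_add, Real.exp_neg (Real.log 4), Real.exp_log (by norm_num)]
      ring
    rw [h1, ← Real.exp_nat_mul, ← Real.exp_nat_mul, hL]
    congr 1
    push_cast
    ring
  have hfin : ((√C)⁻¹ * (Real.exp (-ε) / 4) ^ n) ^ 2 ≤ g⁻¹ ^ 2 := by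
    rw [mul_pow, inv_pow, Real.sq_sqrt hC.le, ← hLe]
    rw [inv_mul_le_iff₀ hC]
    exact hexp.trans hle
  exact le_of_sq_le_sq hfin (inv_pos.2 hg0).le

theorem H_root_lim {K r : ℝ} (hK : 0 < K) (hr : 0 < r) :
    Tendsto (fun n : ℕ => (K * r ^ n) ^ ((1 : ℝ) / n)) atTop (𝓝 r) := by
  have h1 : Tendsto (fun n : ℕ => K ^ ((1 : ℝ) / n) * r) atTop (𝓝 (K ^ (0 : ℝ) * r)) := by
    refine Tendsto.mul_const r ?_
    exact (tendsto_const_nhds.rpow tendsto_one_div_atTop_nhds_zero_nat (Or.inl hK.ne'))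
  rw [Real.rpow_zero, one_mul] at h1
  refine h1.congr' ?_
  filter_upwards [eventually_ge_atTop 1] with n hn
  have hn0 : (n : ℝ) ≠ 0 := by positivity
  rw [Real.mul_rpow hK.le (pow_pos hr n).le, ← Real.rpow_natCast r n, ← Real.rpow_mul hr.le,
    mul_one_div_cancel hn0, Real.rpow_one]

/-- **n-th root asymptotics of the recurrence coefficients.** -/
theorem recur_limit {μ : Measure ℝ} (hp : IsProbabilityMeasure μ) [NullSingletonClass μ]
    (hs : μ (Icc (0 : ℝ) 1)ᶜ = 0)
    (hlow : LowPot μ) {p : ℕ → Polynomial ℝ} {a b : ℕ → ℝ} (h : OrthoSystem μ p a b) :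
    Filter.Tendsto (fun n : ℕ => (∏ i ∈ Finset.Icc 1 n, a i) ^ ((1 : ℝ) / n)) Filter.atTop
      (nhds (1 / 4)) := by
  have hlead : ∀ n, 0 < ((p n).leadingCoeff)⁻¹ := fun n => inv_pos.2 (h.lead n)
  simp only [H_prod h hp]
  rw [tendsto_order]
  constructor
  · intro l hl
    have h1 : Tendsto (fun ε : ℝ => Real.exp (-ε) / 4) (𝓝[>] 0) (𝓝 (1 / 4)) := by
      have : Continuous fun ε : ℝ => Real.exp (-ε) / 4 := by fun_prop
      have h2 := this.tendsto 0
      simp only [neg_zero, Real.exp_zero] at h2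
      exact h2.mono_left nhdsWithin_le_nhds
    obtain ⟨ε, h2, hε⟩ := ((h1.eventually_const_lt hl).and self_mem_nhdsWithin).exists
    obtain ⟨K, hK, hKn⟩ := H_lower hp hs hlow h hε
    have h3 := H_root_lim hK (r := Real.exp (-ε) / 4) (by positivity)
    filter_upwards [h3.eventually_const_lt h2] with n hn
    refine hn.trans_le (Real.rpow_le_rpow (by positivity) (hKn n) (by positivity))
  · intro u hu
    have h3 := H_root_lim (K := 2) (r := 1 / 4) (by norm_num) (by norm_num)
    filter_upwards [h3.eventually_lt_const hu, eventually_ge_atTop 1] with n hn hn1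
    refine lt_of_le_of_lt (Real.rpow_le_rpow (hlead n).le (H_upper hp hs h n hn1) (by positivity)) hn

end Pool.Agent.R263.MQ
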