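import Mathlib
import Pool.Agent.R263.MQ.Defs

/-!
# Chebyshev nodes on the unit interval
-/

namespace Pool.Agent.R263.MQ

open MeasureTheory Set Real Filter Topology
open scoped Polynomial

/-- the angles of the Chebyshev nodes -/
noncomputable def nd_t (N : ℕ) (k : Fin N) : ℝ := (2 * (k : ℕ) + 1) * π / (2 * N)

/-- the nodes -/
noncomputable def nd_x (N : ℕ) (k : Fin N) : ℝ := (1 + cos (nd_t N k)) / 2

lemma nd_prod_T (N : ℕ) (c : ℝ) :
    2 ^ (N - 1) * ∏ k : Fin N, (c - cos (nd_t N k)) = (Polynomial.Chebyshev.T ℝ N).eval c := by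
  classical
  have h1 := Polynomial.Chebyshev.roots_T_real N
  have h2 := Polynomial.Chebyshev.roots_T_real_nodup N
  have hinj : Set.InjOn (fun k : ℕ => cos ((2 * k + 1) * π / (2 * N))) (Finset.range N : Set ℕ) :=
    (Finset.range N).nodup_map_iff_injOn.mp h2
  have h3 : (Polynomial.Chebyshev.T ℝ N).roots.card = (Polynomial.Chebyshev.T ℝ N).natDegree := by
    rw [h1, Polynomial.Chebyshev.natDegree_T, Int.natAbs_natCast, Finset.card_val,
      Finset.card_image_of_injOn hinj, Finset.card_range]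
  have h4 := Polynomial.C_leadingCoeff_mul_prod_multiset_X_sub_C h3
  conv_rhs => rw [← h4]
  rw [Polynomial.eval_mul, Polynomial.eval_C, Polynomial.Chebyshev.leadingCoeff_T,
    Int.natAbs_natCast]
  congr 1
  rw [Polynomial.eval_multiset_prod, Multiset.map_map, h1]
  have h5 : (Multiset.map (Polynomial.eval c ∘ fun a => Polynomial.X - Polynomial.C a)
      (Finset.image (fun k : ℕ => cos ((2 * k + 1) * π / (2 * N))) (Finset.range N)).val).prod =
      ∏ a ∈ Finset.image (fun k : ℕ => cos ((2 * k + 1) * π / (2 * N))) (Finset.range N),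
        (c - a) := by
    rw [Finset.prod]
    congr 1
    apply Multiset.map_congr rfl
    intro a _
    simp
  rw [h5, Finset.prod_image hinj, Finset.prod_range]
  rfl

lemma nd_prod_cos {N : ℕ} (hN : 1 ≤ N) (θ : ℝ) :
    ∏ k : Fin N, |(1 + cos θ) / 2 - nd_x N k| = 2 * (1 / 4) ^ N * |cos (N * θ)| := by
  have h1 := nd_prod_T N (cos θ)
  rw [Polynomial.Chebyshev.T_real_cos, Int.cast_natCast] at h1
  have h2 : ∀ k : Fin N, |(1 + cos θ) / 2 - nd_x N k| = (1 / 2) * |cos θ - cos (nd_t N k)| := by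
    intro k
    rw [nd_x, show (1 + cos θ) / 2 - (1 + cos (nd_t N k)) / 2 =
      (1 / 2) * (cos θ - cos (nd_t N k)) by ring, abs_mul, abs_of_pos (by norm_num : (0:ℝ) < 1 / 2)]
  rw [Finset.prod_congr rfl fun k _ => h2 k, Finset.prod_mul_distrib, Finset.prod_const,
    Finset.card_univ, Fintype.card_fin, ← Finset.abs_prod, ← h1, abs_mul,
    abs_of_pos (by positivity : (0:ℝ) < 2 ^ (N - 1))]
  have h3 : (2 : ℝ) ^ N = 2 * 2 ^ (N - 1) := by
    rw [← pow_succ']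
    congr 1
    omega
  have h4 : (2 : ℝ) * (1 / 4) ^ N * 2 ^ (N - 1) = (1 / 2) ^ N := by
    have h5 : ((1 : ℝ) / 4) ^ N = (1 / 2) ^ N * (1 / 2) ^ N := by
      rw [← mul_pow]; norm_num
    have h6 : ((1 : ℝ) / 2) ^ N * 2 ^ N = 1 := by
      rw [← mul_pow]; norm_num
    calc (2 : ℝ) * (1 / 4) ^ N * 2 ^ (N - 1) = (1 / 4) ^ N * (2 * 2 ^ (N - 1)) := by ring
      _ = (1 / 2) ^ N * ((1 / 2) ^ N * 2 ^ N) := by rw [← h3, h5]; ring
      _ = (1 / 2) ^ N := by rw [h6, mul_one]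
  rw [← h4]
  ring

lemma nd_t_mul {N : ℕ} (hN : 1 ≤ N) (k : Fin N) : N * nd_t N k = (2 * (k : ℕ) + 1) * (π / 2) := by
  have : (N : ℝ) ≠ 0 := by positivity
  rw [nd_t]
  field_simp

lemma nd_abs_cos {N : ℕ} (hN : 1 ≤ N) (j : Fin N) (θ : ℝ) :
    |cos (N * θ)| = |sin (N * (θ - nd_t N j))| := by
  have h1 : (N : ℝ) * θ = N * (θ - nd_t N j) + N * nd_t N j := by ring
  have h2 : cos (N * nd_t N j) = 0 := by
    rw [nd_t_mul hN, cos_eq_zero_iff]
    exact ⟨(j : ℕ), by push_cast; ring⟩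
  have h3 : |sin (N * nd_t N j)| = 1 := by
    have := Real.sin_sq_add_cos_sq (N * nd_t N j)
    rw [h2] at this
    have h4 : |sin (N * nd_t N j)| ^ 2 = 1 := by rw [sq_abs]; linarith
    exact (pow_eq_one_iff_of_nonneg (abs_nonneg _) two_ne_zero).1 h4
  rw [h1, cos_add, h2, mul_zero, zero_sub, abs_neg, abs_mul, h3, mul_one]

/-- the lower bound away from the node -/
lemma nd_low {N : ℕ} (hN : 1 ≤ N) (j : Fin N) {θ : ℝ} (hθ : |θ - nd_t N j| ≤ π / (2 * N))
    (hne : θ ≠ nd_t N j) :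
    (1 / 4 : ℝ) ^ N ≤ ∏ k ∈ Finset.univ.erase j, |(1 + cos θ) / 2 - nd_x N k| := by
  have hN0 : (1 : ℝ) ≤ N := by exact_mod_cast hN
  have hd : 0 < |θ - nd_t N j| := abs_pos.2 (sub_ne_zero.2 hne)
  set g := ∏ k ∈ Finset.univ.erase j, |(1 + cos θ) / 2 - nd_x N k| with hg
  have hg0 : 0 ≤ g := Finset.prod_nonneg fun k _ => abs_nonneg _
  have h1 : |(1 + cos θ) / 2 - nd_x N j| * g = 2 * (1 / 4) ^ N * |sin (N * (θ - nd_t N j))| := by
    rw [hg, Finset.mul_prod_erase Finset.univ (fun k => |(1 + cos θ) / 2 - nd_x N k|)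
      (Finset.mem_univ j), nd_prod_cos hN, nd_abs_cos hN j]
  have h2 : |(1 + cos θ) / 2 - nd_x N j| ≤ |θ - nd_t N j| / 2 := by
    rw [nd_x, show (1 + cos θ) / 2 - (1 + cos (nd_t N j)) / 2 =
      (cos θ - cos (nd_t N j)) / 2 by ring, abs_div, abs_of_pos (by norm_num : (0:ℝ) < 2)]
    have h3 : |cos θ - cos (nd_t N j)| ≤ |θ - nd_t N j| := by
      exact Real.abs_cos_sub_cos_le θ (nd_t N j)
    linarith
  have h3 : 2 / π * (N * |θ - nd_t N j|) ≤ |sin (N * (θ - nd_t N j))| := by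
    have h4 : |sin (N * (θ - nd_t N j))| = sin (N * |θ - nd_t N j|) := by
      have h5 : N * |θ - nd_t N j| ≤ π / 2 := by
        calc N * |θ - nd_t N j| ≤ N * (π / (2 * N)) := by gcongr
          _ = π / 2 := by field_simp
      have h6 : 0 ≤ sin (N * |θ - nd_t N j|) :=
        sin_nonneg_of_nonneg_of_le_pi (by positivity) (by linarith [pi_pos])
      rcases le_or_gt 0 (θ - nd_t N j) with h | h
      · rw [abs_of_nonneg h] at h6 ⊢
        exact abs_of_nonneg h6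
      · rw [abs_of_neg h] at h6 ⊢
        rw [mul_neg, sin_neg] at h6 ⊢
        exact abs_of_nonpos (by linarith)
    rw [h4]
    exact mul_le_sin (by positivity) (by
      calc N * |θ - nd_t N j| ≤ N * (π / (2 * N)) := by gcongr
        _ = π / 2 := by field_simp)
  have h5 : 2 * (1 / 4 : ℝ) ^ N * (2 / π * (N * |θ - nd_t N j|)) ≤ |θ - nd_t N j| / 2 * g := by
    calc 2 * (1 / 4 : ℝ) ^ N * (2 / π * (N * |θ - nd_t N j|))
        ≤ 2 * (1 / 4 : ℝ) ^ N * |sin (N * (θ - nd_t N j))| := by gcongr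
      _ = |(1 + cos θ) / 2 - nd_x N j| * g := h1.symm
      _ ≤ _ := by gcongr
  have h6 : (1 / 4 : ℝ) ^ N ≤ 2 * (1 / 4 : ℝ) ^ N * (2 / π * N) * 2 := by
    have h7 : 1 ≤ 8 * N / π := by
      rw [le_div_iff₀ pi_pos]
      nlinarith [pi_le_four]
    calc (1 / 4 : ℝ) ^ N = (1 / 4 : ℝ) ^ N * 1 := (mul_one _).symm
      _ ≤ (1 / 4 : ℝ) ^ N * (8 * N / π) := by gcongr
      _ = _ := by ring
  have h8 : 2 * (1 / 4 : ℝ) ^ N * (2 / π * N) * 2 ≤ g := by
    have h9 : (2 * (1 / 4 : ℝ) ^ N * (2 / π * N) * 2) * (|θ - nd_t N j| / 2) ≤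
        g * (|θ - nd_t N j| / 2) := by
      calc _ = 2 * (1 / 4 : ℝ) ^ N * (2 / π * (N * |θ - nd_t N j|)) := by ring
        _ ≤ |θ - nd_t N j| / 2 * g := h5
        _ = _ := by ring
    exact le_of_mul_le_mul_right h9 (by positivity)
  exact h6.trans h8

/-- the lower bound near the node -/
lemma nd_low' {N : ℕ} (hN : 1 ≤ N) (j : Fin N) {θ : ℝ} (hθ : |θ - nd_t N j| ≤ π / (2 * N)) :
    (1 / 4 : ℝ) ^ N ≤ ∏ k ∈ Finset.univ.erase j, |(1 + cos θ) / 2 - nd_x N k| := by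
  by_cases hne : θ = nd_t N j
  · subst hne
    have hN0 : (0 : ℝ) < N := by exact_mod_cast hN
    have hc : Continuous fun θ : ℝ => ∏ k ∈ Finset.univ.erase j, |(1 + cos θ) / 2 - nd_x N k| := by
      fun_prop
    refine ge_of_tendsto (hc.continuousAt.tendsto.mono_left
      (nhdsWithin_le_nhds (s := {nd_t N j}ᶜ))) ?_
    have h1 : ∀ᶠ θ in 𝓝 (nd_t N j), |θ - nd_t N j| < π / (2 * N) := by
      have := Metric.ball_mem_nhds (nd_t N j) (show 0 < π / (2 * N) by positivity)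
      filter_upwards [this] with θ hθ
      rwa [Metric.mem_ball, Real.dist_eq] at hθ
    filter_upwards [nhdsWithin_le_nhds h1, self_mem_nhdsWithin] with θ h2 h3
    exact nd_low hN j h2.le h3
  · exact nd_low hN j hθ hne

lemma nd_t_bounds {N : ℕ} (hN : 1 ≤ N) (k : Fin N) :
    π / (2 * N) ≤ nd_t N k ∧ nd_t N k ≤ π - π / (2 * N) := by
  have hN0 : (0 : ℝ) < N := by exact_mod_cast hN
  have hk : ((k : ℕ) : ℝ) + 1 ≤ N := by exact_mod_cast k.2
  rw [nd_t]
  constructor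
  · rw [div_le_div_iff_of_pos_right (by positivity)]
    nlinarith [pi_pos, Nat.cast_nonneg (α := ℝ) (k : ℕ)]
  · rw [div_le_iff₀ (by positivity), sub_mul, div_mul_cancel₀ _ (by positivity)]
    nlinarith [pi_pos]

lemma nd_sin {N : ℕ} (hN : 1 ≤ N) {t : ℝ} (h1 : π / (4 * N) ≤ t) (h2 : t ≤ π - π / (4 * N)) :
    1 / (2 * N) ≤ sin t := by
  have hN0 : (0 : ℝ) < N := by exact_mod_cast hN
  have hN1 : (1 : ℝ) ≤ N := by exact_mod_cast hN
  have key : ∀ s : ℝ, π / (4 * N) ≤ s → s ≤ π / 2 → 1 / (2 * N) ≤ sin s := by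
    intro s hs1 hs2
    have h3 : 0 ≤ s := le_trans (by positivity) hs1
    calc 1 / (2 * (N : ℝ)) = 2 / π * (π / (4 * N)) := by field_simp; norm_num
      _ ≤ 2 / π * s := by gcongr
      _ ≤ sin s := mul_le_sin h3 hs2
  rcases le_or_gt t (π / 2) with h | h
  · exact key t h1 h
  · rw [← sin_pi_sub]
    exact key _ (by linarith) (by linarith)

lemma nd_choose {N : ℕ} (hN : 1 ≤ N) {θ : ℝ} (h0 : 0 ≤ θ) (h1 : θ ≤ π) :
    ∃ j : Fin N, |θ - nd_t N j| ≤ π / (2 * N) := by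
  have hN0 : (0 : ℝ) < N := by exact_mod_cast hN
  by_cases h : θ = π
  · refine ⟨⟨N - 1, by omega⟩, ?_⟩
    rw [h, nd_t, Nat.cast_sub hN]
    have : π - (2 * ((N : ℝ) - (1 : ℕ)) + 1) * π / (2 * N) = π / (2 * N) := by
      field_simp
      push_cast
      ring
    rw [this, abs_of_pos (by positivity)]
  · have h2 : θ < π := lt_of_le_of_ne h1 h
    have h3 : 0 ≤ N * θ / π := by positivity
    refine ⟨⟨⌊N * θ / π⌋₊, ?_⟩, ?_⟩
    · rw [Nat.floor_lt h3, div_lt_iff₀ pi_pos]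
      gcongr
    · have h4 := Nat.floor_le h3
      have h5 := Nat.lt_floor_add_one (N * θ / π)
      rw [le_div_iff₀ pi_pos] at h4
      rw [div_lt_iff₀ pi_pos] at h5
      have h6 : θ - nd_t N ⟨⌊N * θ / π⌋₊, by
          rw [Nat.floor_lt h3, div_lt_iff₀ pi_pos]
          gcongr⟩ = (2 * (N * θ - ⌊N * θ / π⌋₊ * π) - π) / (2 * N) := by
        rw [nd_t]
        field_simp
        ring
      rw [h6, abs_div, abs_of_pos (show (0 : ℝ) < 2 * N by positivity),
        div_le_div_iff_of_pos_right (by positivity), abs_le]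
      constructor <;> linarith

lemma nd_far {N : ℕ} (hN : 1 ≤ N) {j k : Fin N} (hjk : k ≠ j) {θ : ℝ} (h0 : 0 ≤ θ) (h1 : θ ≤ π)
    (hθ : |θ - nd_t N j| ≤ π / (2 * N)) :
    1 / (4 * (N : ℝ) ^ 2) ≤ |(1 + cos θ) / 2 - nd_x N k| := by
  have hN0 : (0 : ℝ) < N := by exact_mod_cast hN
  obtain ⟨hk1, hk2⟩ := nd_t_bounds hN k
  have h2 : π / N ≤ |nd_t N j - nd_t N k| := by
    have h3 : nd_t N j - nd_t N k = (((j : ℕ) : ℝ) - (k : ℕ)) * (π / N) := by
      rw [nd_t, nd_t]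
      field_simp
      ring
    have h4 : (1 : ℝ) ≤ |((j : ℕ) : ℝ) - (k : ℕ)| := by
      have h5 : ((j : ℕ) : ℤ) - (k : ℕ) ≠ 0 := by
        intro h
        apply hjk
        apply Fin.ext
        omega
      have h6 := Int.one_le_abs h5
      exact_mod_cast h6
    rw [h3, abs_mul, abs_of_pos (show 0 < π / N by positivity)]
    exact le_mul_of_one_le_left (by positivity) h4
  have h3 : π / (2 * N) ≤ |θ - nd_t N k| := by
    have h4 : |nd_t N j - nd_t N k| ≤ |θ - nd_t N j| + |θ - nd_t N k| := by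
      have := abs_sub_abs_le_abs_sub (nd_t N j - nd_t N k) (-(θ - nd_t N j))
      have h5 : nd_t N j - nd_t N k - -(θ - nd_t N j) = θ - nd_t N k := by ring
      rw [h5, abs_neg] at this
      linarith
    have h5 : π / N = π / (2 * N) + π / (2 * N) := by field_simp; norm_num
    linarith
  have h4 : π / (4 * N) = π / (2 * N) / 2 := by
    rw [div_div]
    congr 1
    ring
  have hs1 : 1 / (2 * (N : ℝ)) ≤ |sin ((θ + nd_t N k) / 2)| :=
    le_trans (nd_sin hN (by rw [h4]; linarith) (by rw [h4]; linarith)) (le_abs_self _)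
  have hs2 : 1 / (2 * (N : ℝ)) ≤ |sin ((θ - nd_t N k) / 2)| := by
    have h5 : |sin ((θ - nd_t N k) / 2)| = sin (|θ - nd_t N k| / 2) := by
      have h6 : |θ - nd_t N k| ≤ π := by
        rw [abs_le]
        constructor <;> linarith [show 0 < π / (2 * N) by positivity]
      have h7 : 0 ≤ sin (|θ - nd_t N k| / 2) :=
        sin_nonneg_of_nonneg_of_le_pi (by positivity) (by linarith [pi_pos])
      rcases le_or_gt 0 (θ - nd_t N k) with h | h
      · rw [abs_of_nonneg h] at h7 ⊢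
        exact abs_of_nonneg h7
      · rw [abs_of_neg h, neg_div, sin_neg] at h7 ⊢
        exact abs_of_nonpos (by linarith)
    rw [h5]
    have h6 : |θ - nd_t N k| ≤ π - π / (2 * N) := by
      rw [abs_le]
      constructor <;> linarith [show 0 < π / (2 * N) by positivity]
    exact nd_sin hN (by rw [h4]; linarith) (by
      rw [h4]
      linarith [show 0 < π / (2 * N) by positivity, pi_pos])
  have h5 : |(1 + cos θ) / 2 - nd_x N k| =
      |sin ((θ + nd_t N k) / 2)| * |sin ((θ - nd_t N k) / 2)| := by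
    rw [nd_x, show (1 + cos θ) / 2 - (1 + cos (nd_t N k)) / 2 =
      (cos θ - cos (nd_t N k)) / 2 by ring, cos_sub_cos]
    rw [show -2 * sin ((θ + nd_t N k) / 2) * sin ((θ - nd_t N k) / 2) / 2 =
      -(sin ((θ + nd_t N k) / 2) * sin ((θ - nd_t N k) / 2)) by ring, abs_neg, abs_mul]
  rw [h5]
  calc 1 / (4 * (N : ℝ) ^ 2) = 1 / (2 * N) * (1 / (2 * N)) := by field_simp; norm_num
    _ ≤ _ := by gcongr

theorem nodes (N : ℕ) (hN : 1 ≤ N) : ∃ x : Fin N → ℝ, (∀ i, x i ∈ Icc (0 : ℝ) 1) ∧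
    (∀ z ∈ Icc (0 : ℝ) 1, ∏ i, |z - x i| ≤ 2 * (1 / 4) ^ N) ∧
    ∀ z ∈ Icc (0 : ℝ) 1, ∃ j, (∀ k, k ≠ j → 1 / (4 * (N : ℝ) ^ 2) ≤ |z - x k|) ∧
      (1 / 4 : ℝ) ^ N ≤ ∏ k ∈ Finset.univ.erase j, |z - x k| := by
  have hz : ∀ z ∈ Icc (0 : ℝ) 1, ∃ θ : ℝ, 0 ≤ θ ∧ θ ≤ π ∧ z = (1 + cos θ) / 2 := by
    intro z hz
    refine ⟨arccos (2 * z - 1), arccos_nonneg _, arccos_le_pi _, ?_⟩
    rw [cos_arccos (by linarith [hz.1]) (by linarith [hz.2])]
    ring
  refine ⟨nd_x N, fun i => ?_, fun z hz' => ?_, fun z hz' => ?_⟩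
  · rw [nd_x]
    constructor
    · linarith [neg_one_le_cos (nd_t N i)]
    · linarith [cos_le_one (nd_t N i)]
  · obtain ⟨θ, _, _, rfl⟩ := hz z hz'
    rw [nd_prod_cos hN]
    have := abs_cos_le_one (N * θ)
    exact mul_le_of_le_one_right (by positivity) this
  · obtain ⟨θ, h0, h1, rfl⟩ := hz z hz'
    obtain ⟨j, hj⟩ := nd_choose hN h0 h1
    exact ⟨j, fun k hk => nd_far hN hk h0 h1 hj, nd_low' hN j hj⟩

end Pool.Agent.R263.MQ
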