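import Mathlib
import Pool.Agent.R263.MQ.Defs

/-!
# The question mark measure: no atoms, self-similarity
-/

namespace Pool.Agent.R263.MQ

open MeasureTheory Set Real

/-- the `k`-th term of Denjoy's series -/
noncomputable def sTerm (x : ℝ) (k : ℕ) : ℝ :=
  if gauss^[k] x = 0 then 0 else (-1 : ℝ) ^ k / 2 ^ (∑ i ∈ Finset.range (k + 1), pq x i)

theorem sQm (x : ℝ) : qm x = 2 * ∑' k : ℕ, sTerm x k := rfl

theorem sGauss_zero : gauss 0 = 0 := by simp [gauss]

theorem sIter_zero (k : ℕ) : gauss^[k] 0 = 0 := by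
  induction k with
  | zero => rfl
  | succ n ih => rw [Function.iterate_succ_apply', ih, sGauss_zero]

theorem sQm_zero : qm 0 = 0 := by
  rw [sQm]
  have : ∀ k, sTerm 0 k = 0 := fun k => by simp [sTerm, sIter_zero]
  simp [this]

theorem sPq_succ (x : ℝ) (k : ℕ) : pq x (k + 1) = pq (gauss x) k := by
  unfold pq; rw [Function.iterate_succ_apply]

theorem sGauss_f0 {x : ℝ} (hx : 0 < x) : gauss (f0 x) = gauss x := by
  unfold gauss f0
  have : (x / (1 + x))⁻¹ = x⁻¹ + 1 := by field_simp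
  rw [this, Int.fract_add_one]

theorem sPq_f0_zero {x : ℝ} (hx : 0 < x) : pq (f0 x) 0 = pq x 0 + 1 := by
  unfold pq f0
  have : (x / (1 + x))⁻¹ = x⁻¹ + 1 := by field_simp
  simp only [Function.iterate_zero, id]
  rw [this, Nat.floor_add_one (by positivity)]

theorem sQm_f0 {x : ℝ} (hx : 0 ≤ x) : qm (f0 x) = qm x / 2 := by
  rcases hx.eq_or_lt with rfl | hx
  · simp [f0, sQm_zero]
  have key : ∀ k, sTerm (f0 x) k = sTerm x k / 2 := by
    intro k
    have h1 : (gauss^[k] (f0 x) = 0) ↔ (gauss^[k] x = 0) := by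
      cases k with
      | zero =>
        simp only [Function.iterate_zero, id]
        constructor
        · intro h
          exfalso
          have : 0 < f0 x := by unfold f0; positivity
          exact this.ne' h
        · intro h; exact absurd h hx.ne'
      | succ n => rw [Function.iterate_succ_apply, Function.iterate_succ_apply, sGauss_f0 hx]
    have h2 : ∑ i ∈ Finset.range (k + 1), pq (f0 x) i =
        (∑ i ∈ Finset.range (k + 1), pq x i) + 1 := by
      rw [Finset.sum_range_succ', Finset.sum_range_succ', sPq_f0_zero hx]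
      have : ∀ i, pq (f0 x) (i + 1) = pq x (i + 1) := fun i => by
        rw [sPq_succ, sPq_succ, sGauss_f0 hx]
      simp only [this]
      ring
    unfold sTerm
    rw [h2]
    by_cases h : gauss^[k] x = 0
    · rw [if_pos h, if_pos (h1.mpr h)]; simp
    · rw [if_neg h, if_neg (fun h' => h (h1.mp h'))]
      rw [pow_succ]
      field_simp
  rw [sQm, sQm, tsum_congr key, tsum_div_const]
  ring

theorem sGauss_mem (x : ℝ) : gauss x ∈ Ico (0 : ℝ) 1 :=
  ⟨Int.fract_nonneg _, Int.fract_lt_one _⟩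

theorem sIter_mem {x : ℝ} (hx : x ∈ Icc (0 : ℝ) 1) (k : ℕ) : gauss^[k] x ∈ Icc (0 : ℝ) 1 := by
  cases k with
  | zero => exact hx
  | succ n =>
    rw [Function.iterate_succ_apply']
    exact Ico_subset_Icc_self (sGauss_mem _)

theorem sPq_pos {x : ℝ} (hx : x ∈ Icc (0 : ℝ) 1) {k : ℕ} (h : gauss^[k] x ≠ 0) :
    1 ≤ pq x k := by
  have h1 := sIter_mem hx k
  unfold pq
  rw [Nat.one_le_floor_iff, one_le_inv_iff₀]
  exact ⟨lt_of_le_of_ne h1.1 (Ne.symm h), h1.2⟩

theorem sIter_ne {x : ℝ} {k i : ℕ} (hik : i ≤ k) (h : gauss^[k] x ≠ 0) : gauss^[i] x ≠ 0 := by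
  intro h0
  apply h
  obtain ⟨j, rfl⟩ := Nat.exists_eq_add_of_le hik
  rw [Nat.add_comm, Function.iterate_add_apply, h0, sIter_zero]

theorem sTerm_bound {x : ℝ} (hx : x ∈ Icc (0 : ℝ) 1) (k : ℕ) :
    |sTerm x k| ≤ (1 / 2 : ℝ) ^ (k + 1) := by
  unfold sTerm
  by_cases h : gauss^[k] x = 0
  · rw [if_pos h]; simp
  · rw [if_neg h, abs_div, abs_pow, abs_neg, abs_one, one_pow, abs_of_pos (by positivity),
      one_div_pow]
    apply one_div_le_one_div_of_le (by positivity)
    apply pow_le_pow_right₀ (by norm_num)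
    calc k + 1 = ∑ i ∈ Finset.range (k + 1), 1 := by simp
      _ ≤ ∑ i ∈ Finset.range (k + 1), pq x i := by
        apply Finset.sum_le_sum
        intro i hi
        rw [Finset.mem_range] at hi
        exact sPq_pos hx (sIter_ne (by omega) h)

theorem sSummable {x : ℝ} (hx : x ∈ Icc (0 : ℝ) 1) : Summable (sTerm x) := by
  apply Summable.of_norm_bounded (g := fun k => (1 / 2 : ℝ) ^ (k + 1))
  · exact (summable_nat_add_iff 1).mpr
      (summable_geometric_of_lt_one (by norm_num) (by norm_num))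
  · intro k
    rw [Real.norm_eq_abs]
    exact sTerm_bound hx k

theorem sF1_mem {x : ℝ} (hx : x ∈ Icc (0 : ℝ) 1) : f1 x ∈ Icc (0 : ℝ) 1 := by
  unfold f1
  have := hx.1
  refine ⟨by positivity, ?_⟩
  rw [div_le_one (by positivity)]
  linarith

theorem sF0_mem {x : ℝ} (hx : x ∈ Icc (0 : ℝ) 1) : f0 x ∈ Icc (0 : ℝ) 1 := by
  unfold f0
  have := hx.1
  refine ⟨by positivity, ?_⟩
  rw [div_le_one (by positivity)]
  linarith

theorem sGauss_f1 {x : ℝ} (hx : x ∈ Ico (0 : ℝ) 1) : gauss (f1 x) = x := by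
  unfold gauss f1
  rw [one_div, inv_inv, add_comm, Int.fract_add_one]
  exact Int.fract_eq_self.mpr hx

theorem sPq_f1_zero {x : ℝ} (hx : x ∈ Ico (0 : ℝ) 1) : pq (f1 x) 0 = 1 := by
  unfold pq f1
  simp only [Function.iterate_zero, id]
  rw [one_div, inv_inv, Nat.floor_eq_iff (by linarith [hx.1])]
  constructor
  · push_cast; linarith [hx.1]
  · push_cast; linarith [hx.2]

theorem sQm_f1_aux {x : ℝ} (hx : x ∈ Ico (0 : ℝ) 1) : qm (f1 x) = 1 - qm x / 2 := by
  have hx' : x ∈ Icc (0 : ℝ) 1 := Ico_subset_Icc_self hx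
  have h0 : sTerm (f1 x) 0 = 1 / 2 := by
    unfold sTerm
    have : gauss^[0] (f1 x) ≠ 0 := by
      simp only [Function.iterate_zero, id]
      unfold f1
      have := hx.1
      positivity
    rw [if_neg this]
    simp [sPq_f1_zero hx]
  have h1 : ∀ k, sTerm (f1 x) (k + 1) = - (sTerm x k / 2) := by
    intro k
    unfold sTerm
    rw [Function.iterate_succ_apply, sGauss_f1 hx, Finset.sum_range_succ', sPq_f1_zero hx]
    have : ∀ i, pq (f1 x) (i + 1) = pq x i := fun i => by rw [sPq_succ, sGauss_f1 hx]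
    simp only [this]
    by_cases h : gauss^[k] x = 0
    · rw [if_pos h, if_pos h]; simp
    · rw [if_neg h, if_neg h, pow_succ, pow_succ]
      field_simp
  rw [sQm, (sSummable (sF1_mem hx')).tsum_eq_zero_add, h0, tsum_congr h1, tsum_neg, tsum_div_const,
    sQm]
  ring

theorem sQm_one : qm 1 = 1 := by
  have h := sQm_f1_aux (x := 0) ⟨le_rfl, by norm_num⟩
  rw [sQm_zero] at h
  have h2 : f1 0 = 1 := by simp [f1]
  rw [h2] at h
  simpa using h

theorem sQm_f1 {x : ℝ} (hx : x ∈ Icc (0 : ℝ) 1) : qm (f1 x) = 1 - qm x / 2 := by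
  rcases hx.2.eq_or_lt with rfl | h
  · have h2 : f1 1 = f0 1 := by simp [f0, f1]
    rw [h2, sQm_f0 (by norm_num), sQm_one]
    norm_num
  · exact sQm_f1_aux ⟨hx.1, h⟩

/-- `f0` has inverse `t ↦ t/(1-t)` on `[0,1/2]` -/
theorem sInv0 {t : ℝ} (ht : t ∈ Icc (0 : ℝ) (1 / 2)) :
    t / (1 - t) ∈ Icc (0 : ℝ) 1 ∧ f0 (t / (1 - t)) = t := by
  have h1 := ht.1
  have h2 := ht.2
  have h3 : 0 < 1 - t := by linarith
  refine ⟨⟨by positivity, ?_⟩, ?_⟩
  · rw [div_le_one h3]; linarith
  · unfold f0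
    have : 1 + t / (1 - t) = 1 / (1 - t) := by field_simp; ring
    rw [this]
    field_simp

theorem sInv1 {t : ℝ} (ht : t ∈ Icc (1 / 2 : ℝ) 1) :
    1 / t - 1 ∈ Icc (0 : ℝ) 1 ∧ f1 (1 / t - 1) = t := by
  have h1 := ht.1
  have h2 := ht.2
  have h3 : 0 < t := by linarith
  refine ⟨⟨?_, ?_⟩, ?_⟩
  · rw [sub_nonneg, le_div_iff₀ h3]; linarith
  · rw [sub_le_iff_le_add, div_le_iff₀ h3]; linarith
  · unfold f1
    rw [add_sub_cancel]
    simp

theorem sF0_lt {x y : ℝ} (hx : 0 ≤ x) (hxy : x < y) : f0 x < f0 y := by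
  unfold f0
  rw [div_lt_div_iff₀ (by linarith) (by linarith)]
  nlinarith

theorem sF1_lt {x y : ℝ} (hx : 0 ≤ x) (hxy : x < y) : f1 y < f1 x := by
  unfold f1
  apply one_div_lt_one_div_of_lt (by linarith)
  linarith

variable {μ : Measure ℝ}

theorem sQm_mem (h : IsMinkowski μ) {x : ℝ} (hx : x ∈ Icc (0 : ℝ) 1) : qm x ∈ Icc (0 : ℝ) 1 := by
  have := h.prob
  rw [← h.cdf x hx]
  exact ⟨measureReal_nonneg, measureReal_le_one⟩

theorem sSmall (h : IsMinkowski μ) (m : ℕ) :
    (∀ x ∈ Ioc (0 : ℝ) 1, ∃ l, 0 ≤ l ∧ l < x ∧ qm x - qm l ≤ (1 / 2) ^ m) ∧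
    (∀ x ∈ Ico (0 : ℝ) 1, ∃ r, x < r ∧ r ≤ 1 ∧ qm r - qm x ≤ (1 / 2) ^ m) := by
  induction m with
  | zero =>
    constructor
    · intro x hx
      refine ⟨0, le_rfl, hx.1, ?_⟩
      have := (sQm_mem h (Ioc_subset_Icc_self hx)).2
      rw [sQm_zero]; simpa using this
    · intro x hx
      refine ⟨1, hx.2, le_rfl, ?_⟩
      have := (sQm_mem h (Ico_subset_Icc_self hx)).1
      rw [sQm_one]; simpa using this
  | succ m ih =>
    obtain ⟨ihl, ihr⟩ := ih
    constructor
    · intro x hx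
      rcases le_or_gt x (1 / 2) with hx2 | hx2
      · obtain ⟨ht, hfx⟩ := sInv0 (t := x) ⟨hx.1.le, hx2⟩
        set t := x / (1 - x)
        have ht0 : 0 < t := by
          rcases ht.1.eq_or_lt with h0 | h0
          · rw [← h0] at hfx
            simp [f0] at hfx
            linarith [hx.1]
          · exact h0
        obtain ⟨l, hl0, hlt, hl⟩ := ihl t ⟨ht0, ht.2⟩
        refine ⟨f0 l, (sF0_mem ⟨hl0, by linarith [ht.2]⟩).1, ?_, ?_⟩
        · rw [← hfx]; exact sF0_lt hl0 hlt
        · rw [← hfx, sQm_f0 ht.1, sQm_f0 hl0, pow_succ]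
          linarith
      · obtain ⟨ht, hfx⟩ := sInv1 (t := x) ⟨hx2.le, hx.2⟩
        set t := 1 / x - 1
        have ht1 : t < 1 := by
          rcases ht.2.eq_or_lt with h0 | h0
          · rw [h0] at hfx
            simp [f1] at hfx
            linarith
          · exact h0
        obtain ⟨r, hr0, hr1, hr⟩ := ihr t ⟨ht.1, ht1⟩
        have hr' : r ∈ Icc (0 : ℝ) 1 := ⟨by linarith [ht.1], hr1⟩
        refine ⟨f1 r, (sF1_mem hr').1, ?_, ?_⟩
        · rw [← hfx]; exact sF1_lt ht.1 hr0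
        · rw [← hfx, sQm_f1 ht, sQm_f1 hr', pow_succ]
          linarith
    · intro x hx
      rcases lt_or_ge x (1 / 2) with hx2 | hx2
      · obtain ⟨ht, hfx⟩ := sInv0 (t := x) ⟨hx.1, hx2.le⟩
        set t := x / (1 - x)
        have ht1 : t < 1 := by
          rcases ht.2.eq_or_lt with h0 | h0
          · rw [h0] at hfx
            simp [f0] at hfx
            linarith
          · exact h0
        obtain ⟨r, hr0, hr1, hr⟩ := ihr t ⟨ht.1, ht1⟩
        have hr' : r ∈ Icc (0 : ℝ) 1 := ⟨by linarith [ht.1], hr1⟩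
        refine ⟨f0 r, ?_, (sF0_mem hr').2, ?_⟩
        · rw [← hfx]; exact sF0_lt ht.1 hr0
        · rw [← hfx, sQm_f0 ht.1, sQm_f0 hr'.1, pow_succ]
          linarith
      · obtain ⟨ht, hfx⟩ := sInv1 (t := x) ⟨hx2, hx.2.le⟩
        set t := 1 / x - 1
        have ht0 : 0 < t := by
          rcases ht.1.eq_or_lt with h0 | h0
          · rw [← h0] at hfx
            simp [f1] at hfx
            linarith [hx.2]
          · exact h0
        obtain ⟨l, hl0, hlt, hl⟩ := ihl t ⟨ht0, ht.2⟩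
        have hl' : l ∈ Icc (0 : ℝ) 1 := ⟨hl0, by linarith [ht.2]⟩
        refine ⟨f1 l, ?_, (sF1_mem hl').2, ?_⟩
        · rw [← hfx]; exact sF1_lt hl0 hlt
        · rw [← hfx, sQm_f1 ht, sQm_f1 hl', pow_succ]
          linarith

theorem sNoAtoms (h : IsMinkowski μ) : NullSingletonClass μ := by
  have := h.prob
  constructor
  intro x
  by_cases hx : x ∈ Icc (0 : ℝ) 1
  · rcases hx.1.eq_or_lt with h0 | h0
    · have h1 := h.cdf 0 ⟨le_rfl, by norm_num⟩
      rw [Icc_self, sQm_zero] at h1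
      rw [← h0]
      exact (measureReal_eq_zero_iff (by finiteness)).mp h1
    · have key : ∀ m : ℕ, μ.real {x} ≤ (1 / 2) ^ m := by
        intro m
        obtain ⟨l, hl0, hlx, hl⟩ := (sSmall h m).1 x ⟨h0, hx.2⟩
        have h2 : μ.real (Icc 0 x) = μ.real (Icc 0 l) + μ.real (Ioc l x) := by
          rw [← measureReal_union _ measurableSet_Ioc, Icc_union_Ioc_eq_Icc hl0 hlx.le]
          rw [Set.disjoint_left]
          intro y hy hy'
          exact absurd hy.2 (not_le.mpr hy'.1)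
        rw [h.cdf x hx, h.cdf l ⟨hl0, by linarith [hx.2]⟩] at h2
        have h3 : μ.real {x} ≤ μ.real (Ioc l x) := by
          refine measureReal_mono ?_ (by finiteness)
          intro y hy
          rw [mem_singleton_iff] at hy
          subst hy
          exact ⟨hlx, le_rfl⟩
        linarith
      have h4 : μ.real {x} ≤ 0 := by
        apply ge_of_tendsto' (tendsto_pow_atTop_nhds_zero_of_lt_one (r := (1 / 2 : ℝ)) (by norm_num)
          (by norm_num)) key
      exact (measureReal_eq_zero_iff (by finiteness)).mp (le_antisymm h4 measureReal_nonneg)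
  · exact measure_mono_null (by intro y hy; rw [mem_singleton_iff] at hy; subst hy; exact hx) h.supp

theorem sReal_inter (h : IsMinkowski μ) (A : Set ℝ) : μ.real A = μ.real (A ∩ Icc (0 : ℝ) 1) := by
  have := h.prob
  unfold Measure.real
  rw [measure_inter_conull h.supp]

theorem sMeas0 : Measurable f0 := by unfold f0; fun_prop
theorem sMeas1 : Measurable f1 := by unfold f1; fun_prop

theorem sReal_Icc (h : IsMinkowski μ) : μ.real (Icc (0 : ℝ) 1) = 1 := by
  rw [h.cdf 1 ⟨by norm_num, le_rfl⟩, sQm_one]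

theorem sKey (h : IsMinkowski μ) (t : ℝ) :
    μ.real (f0 ⁻¹' Iic t) + μ.real (f1 ⁻¹' Iic t) = 2 * μ.real (Iic t) := by
  have := h.prob
  have hna := sNoAtoms h
  rw [sReal_inter h (f0 ⁻¹' Iic t), sReal_inter h (f1 ⁻¹' Iic t), sReal_inter h (Iic t)]
  rcases lt_or_ge t 0 with ht | ht
  · have e1 : f0 ⁻¹' Iic t ∩ Icc (0 : ℝ) 1 = ∅ := by
      ext y
      simp only [mem_inter_iff, mem_preimage, mem_Iic, mem_empty_iff_false, iff_false, not_and]
      intro hy hy'
      linarith [(sF0_mem hy').1]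
    have e2 : f1 ⁻¹' Iic t ∩ Icc (0 : ℝ) 1 = ∅ := by
      ext y
      simp only [mem_inter_iff, mem_preimage, mem_Iic, mem_empty_iff_false, iff_false, not_and]
      intro hy hy'
      linarith [(sF1_mem hy').1]
    have e3 : Iic t ∩ Icc (0 : ℝ) 1 = ∅ := by
      ext y
      simp only [mem_inter_iff, mem_Iic, mem_empty_iff_false, iff_false, not_and]
      intro hy hy'
      linarith [hy'.1]
    rw [e1, e2, e3]; simp
  rcases lt_or_ge 1 t with ht1 | ht1
  · have e1 : f0 ⁻¹' Iic t ∩ Icc (0 : ℝ) 1 = Icc (0 : ℝ) 1 := by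
      rw [inter_eq_right]
      intro y hy
      exact (sF0_mem hy).2.trans ht1.le
    have e2 : f1 ⁻¹' Iic t ∩ Icc (0 : ℝ) 1 = Icc (0 : ℝ) 1 := by
      rw [inter_eq_right]
      intro y hy
      exact (sF1_mem hy).2.trans ht1.le
    have e3 : Iic t ∩ Icc (0 : ℝ) 1 = Icc (0 : ℝ) 1 := by
      rw [inter_eq_right]
      intro y hy
      exact hy.2.trans ht1.le
    rw [e1, e2, e3, sReal_Icc h]; norm_num
  have e3 : Iic t ∩ Icc (0 : ℝ) 1 = Icc 0 t := by
    ext y
    simp only [mem_inter_iff, mem_Iic, mem_Icc]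
    constructor
    · rintro ⟨a, b, c⟩; exact ⟨b, a⟩
    · rintro ⟨a, b⟩; exact ⟨b, a, b.trans ht1⟩
  rw [e3, h.cdf t ⟨ht, ht1⟩]
  rcases le_or_gt t (1 / 2) with ht2 | ht2
  · obtain ⟨hs, hfs⟩ := sInv0 (t := t) ⟨ht, ht2⟩
    set s := t / (1 - t)
    have e1 : f0 ⁻¹' Iic t ∩ Icc (0 : ℝ) 1 = Icc 0 s := by
      ext y
      simp only [mem_inter_iff, mem_preimage, mem_Iic, mem_Icc]
      constructor
      · rintro ⟨a, b, c⟩
        refine ⟨b, ?_⟩
        by_contra hlt
        push Not at hlt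
        have := sF0_lt hs.1 hlt
        rw [hfs] at this
        linarith
      · rintro ⟨a, b⟩
        refine ⟨?_, a, b.trans hs.2⟩
        rw [← hfs]
        rcases b.eq_or_lt with rfl | b
        · exact le_rfl
        · exact (sF0_lt a b).le
    have e2 : μ.real (f1 ⁻¹' Iic t ∩ Icc (0 : ℝ) 1) = 0 := by
      rw [measureReal_eq_zero_iff (by finiteness)]
      apply measure_mono_null _ (measure_singleton (μ := μ) (1 : ℝ))
      rintro y ⟨hy, hy'⟩
      simp only [mem_preimage, mem_Iic] at hy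
      rw [mem_singleton_iff]
      apply le_antisymm hy'.2
      unfold f1 at hy
      have h0 := hy'.1
      have : 1 / (1 + y) ≤ 1 / 2 := hy.trans ht2
      rw [div_le_div_iff₀ (by linarith) (by norm_num)] at this
      linarith
    rw [e1, e2, h.cdf s hs, ← hfs, sQm_f0 hs.1]
    ring
  · obtain ⟨hs, hfs⟩ := sInv1 (t := t) ⟨ht2.le, ht1⟩
    set s := 1 / t - 1
    have e1 : f0 ⁻¹' Iic t ∩ Icc (0 : ℝ) 1 = Icc (0 : ℝ) 1 := by
      rw [inter_eq_right]
      intro y hy
      have h1 : f0 y ≤ 1 / 2 := by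
        unfold f0
        have := hy.1
        rw [div_le_div_iff₀ (by linarith) (by norm_num)]
        linarith [hy.2]
      exact h1.trans ht2.le
    have e2 : f1 ⁻¹' Iic t ∩ Icc (0 : ℝ) 1 = Icc s 1 := by
      ext y
      simp only [mem_inter_iff, mem_preimage, mem_Iic, mem_Icc]
      constructor
      · rintro ⟨a, b, c⟩
        refine ⟨?_, c⟩
        by_contra hlt
        push Not at hlt
        have := sF1_lt b hlt
        rw [hfs] at this
        linarith
      · rintro ⟨a, b⟩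
        refine ⟨?_, hs.1.trans a, b⟩
        rw [← hfs]
        rcases a.eq_or_lt with rfl | a
        · exact le_rfl
        · exact (sF1_lt hs.1 a).le
    have e4 : μ.real (Icc 0 s) + μ.real (Icc s 1) = 1 := by
      have e5 : μ.real (Icc s 1) = μ.real (Ioc s 1) := by
        unfold Measure.real
        rw [measure_congr (Ioc_ae_eq_Icc (μ := μ) (a := s) (b := 1))]
      rw [e5, ← measureReal_union _ measurableSet_Ioc, Icc_union_Ioc_eq_Icc hs.1 hs.2, sReal_Icc h]
      rw [Set.disjoint_left]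
      intro y hy hy'
      exact absurd hy.2 (not_le.mpr hy'.1)
    rw [h.cdf s hs] at e4
    rw [e1, e2, sReal_Icc h, ← hfs, sQm_f1 hs]
    linarith

theorem selfsim {μ : Measure ℝ} (h : IsMinkowski μ) :
    NullSingletonClass μ ∧ μ.map f0 + μ.map f1 = 2 • μ := by
  have := h.prob
  refine ⟨sNoAtoms h, ?_⟩
  have hf0 : IsFiniteMeasure (μ.map f0) := inferInstance
  have hf1 : IsFiniteMeasure (μ.map f1) := inferInstance
  apply Measure.ext_of_Iic
  intro t
  rw [Measure.add_apply, Measure.map_apply sMeas0 measurableSet_Iic,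
    Measure.map_apply sMeas1 measurableSet_Iic, Measure.smul_apply, two_nsmul]
  have key := sKey h t
  unfold Measure.real at key
  rw [two_mul, ← ENNReal.toReal_add (by finiteness) (by finiteness),
    ← ENNReal.toReal_add (by finiteness) (by finiteness)] at key
  exact (ENNReal.toReal_eq_toReal_iff' (by finiteness) (by finiteness)).mp key

end Pool.Agent.R263.MQ
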